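import Pool.Agent.Helper67_CIP.Pairs

/-!
Amenable groups acting with small supports: counting in Folner sets and the iteration of
commutators.
-/

namespace Pool.Agent.H67.CIP

open Pool.Agent.H50.CIG MeasureTheory Filter

variable {G : Type*} [Group G]

/-- the support of an element -/
def supp {X : Type*} [MulAction G X] (g : G) : Set X := {x | g • x ≠ x}

theorem supp_conj {X : Type*} [MulAction G X] (a g : G) (x : X) :
    x ∈ (supp (g⁻¹ * a * g) : Set X) ↔ g • x ∈ (supp a : Set X) := by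
  show (g⁻¹ * a * g) • x ≠ x ↔ a • g • x ≠ g • x
  rw [not_iff_not, mul_smul, mul_smul, inv_smul_eq_iff]

theorem supp_cm {X : Type*} [MulAction G X] (u b : G) (x : X)
    (hx : x ∈ (supp (cm u b) : Set X)) :
    x ∈ (supp u ∩ supp b : Set X) ∨ u⁻¹ • x ∈ (supp u ∩ supp b : Set X) ∨
      b⁻¹ • x ∈ (supp u ∩ supp b : Set X) := by
  by_contra hcon
  push Not at hcon
  obtain ⟨h1, h2, h3⟩ := hcon
  apply hx
  have hsu : ∀ z : X, z ∈ (supp u : Set X) → u⁻¹ • z ∈ (supp u : Set X) := by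
    intro z hz h
    apply hz
    rw [smul_inv_smul] at h
    exact eq_inv_smul_iff.mp h
  have hsb : ∀ z : X, z ∈ (supp b : Set X) → b⁻¹ • z ∈ (supp b : Set X) := by
    intro z hz h
    apply hz
    rw [smul_inv_smul] at h
    exact eq_inv_smul_iff.mp h
  have hfix : ∀ (w : G) (z : X), z ∉ (supp w : Set X) → w • z = z := by
    intro w z hz
    by_contra h
    exact hz h
  have hfix' : ∀ (w : G) (z : X), z ∉ (supp w : Set X) → w⁻¹ • z = z := by
    intro w z hz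
    rw [inv_smul_eq_iff]
    exact (hfix w z hz).symm
  show (u * b * u⁻¹ * b⁻¹) • x = x
  rw [mul_smul, mul_smul, mul_smul]
  by_cases hxb : x ∈ (supp b : Set X)
  · have hxu : x ∉ (supp u : Set X) := fun h => h1 ⟨h, hxb⟩
    have hbx : b⁻¹ • x ∉ (supp u : Set X) := fun h => h3 ⟨h, hsb x hxb⟩
    rw [hfix' u _ hbx, smul_inv_smul]
    exact hfix u x hxu
  · rw [hfix' b x hxb]
    by_cases hxu : x ∈ (supp u : Set X)
    · have hux : u⁻¹ • x ∉ (supp b : Set X) := fun h => h2 ⟨hsu x hxu, h⟩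
      rw [hfix b _ hux, smul_inv_smul]
    · rw [hfix' u x hxu, hfix b x hxb]
      exact hfix u x hxu

variable {X : Type*} [MeasurableSpace X] [MulAction G X]

theorem measure_supp_cm (μ : Measure X) [IsProbabilityMeasure μ]
    (hμ : ∀ g : G, MeasurePreserving (fun x : X => g • x) μ μ)
    (hm : ∀ g : G, MeasurableSet (supp g : Set X)) (u b : G) :
    μ.real (supp (cm u b) : Set X) ≤ 3 * μ.real (supp u ∩ supp b : Set X) := by
  have hT : MeasurableSet (supp u ∩ supp b : Set X) := (hm u).inter (hm b)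
  have h1 : (supp (cm u b) : Set X) ⊆ (supp u ∩ supp b : Set X) ∪
      ((fun x : X => u⁻¹ • x) ⁻¹' (supp u ∩ supp b : Set X) ∪
        (fun x : X => b⁻¹ • x) ⁻¹' (supp u ∩ supp b : Set X)) := by
    intro x hx
    rcases supp_cm u b x hx with h | h | h
    · exact Or.inl h
    · exact Or.inr (Or.inl h)
    · exact Or.inr (Or.inr h)
  have h2 : ∀ g : G, μ.real ((fun x : X => g • x) ⁻¹' (supp u ∩ supp b : Set X)) =
      μ.real (supp u ∩ supp b : Set X) := by
    intro g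
    rw [measureReal_def, measureReal_def, (hμ g).measure_preimage hT.nullMeasurableSet]
  calc μ.real (supp (cm u b) : Set X) ≤ _ := measureReal_mono h1
    _ ≤ _ := measureReal_union_le _ _
    _ ≤ μ.real (supp u ∩ supp b : Set X) +
        (μ.real ((fun x : X => u⁻¹ • x) ⁻¹' (supp u ∩ supp b : Set X)) +
          μ.real ((fun x : X => b⁻¹ • x) ⁻¹' (supp u ∩ supp b : Set X))) := by
        gcongr
        exact measureReal_union_le _ _
    _ = 3 * μ.real (supp u ∩ supp b : Set X) := by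
        rw [h2, h2]
        ring

/-- averaging the intersections of the support of b with the supports of conjugates of a -/
theorem average (μ : Measure X) [IsProbabilityMeasure μ]
    (hm : ∀ g : G, MeasurableSet (supp g : Set X)) (a b : G) (Ω : Finset G) (η : ℝ)
    (ha : ∀ x : X, (∑ g ∈ Ω, (supp a : Set X).indicator (fun _ => (1 : ℝ)) (g • x)) ≤ η) :
    ∑ g ∈ Ω, μ.real (supp (g⁻¹ * a * g) ∩ supp b : Set X) ≤ η * μ.real (supp b : Set X) := by
  have h1 : ∀ g : G, μ.real (supp (g⁻¹ * a * g) ∩ supp b : Set X) =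
      ∫ x, (supp (g⁻¹ * a * g) ∩ supp b : Set X).indicator (fun _ => (1 : ℝ)) x ∂μ := by
    intro g
    rw [integral_indicator ((hm _).inter (hm b))]
    simp
  have hint : ∀ g : G, Integrable
      ((supp (g⁻¹ * a * g) ∩ supp b : Set X).indicator (fun _ => (1 : ℝ))) μ := by
    intro g
    exact (integrable_const (1 : ℝ)).indicator ((hm _).inter (hm b))
  have h2 : ∑ g ∈ Ω, μ.real (supp (g⁻¹ * a * g) ∩ supp b : Set X) =
      ∫ x, ∑ g ∈ Ω, (supp (g⁻¹ * a * g) ∩ supp b : Set X).indicator (fun _ => (1 : ℝ)) x ∂μ := by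
    rw [integral_finsetSum _ fun g _ => hint g]
    exact Finset.sum_congr rfl fun g _ => h1 g
  have h3 : η * μ.real (supp b : Set X) =
      ∫ x, (supp b : Set X).indicator (fun _ => η) x ∂μ := by
    rw [integral_indicator (hm b)]
    simp [mul_comm]
  rw [h2, h3]
  apply integral_mono
  · exact integrable_finsetSum _ fun g _ => hint g
  · exact (integrable_const η).indicator (hm b)
  · intro x
    show ∑ g ∈ Ω, (supp (g⁻¹ * a * g) ∩ supp b : Set X).indicator (fun _ => (1 : ℝ)) x ≤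
      (supp b : Set X).indicator (fun _ => η) x
    by_cases hx : x ∈ (supp b : Set X)
    · rw [Set.indicator_of_mem hx]
      refine le_trans (le_of_eq ?_) (ha x)
      apply Finset.sum_congr rfl
      intro g _
      by_cases hg : g • x ∈ (supp a : Set X)
      · rw [Set.indicator_of_mem hg, Set.indicator_of_mem]
        exact ⟨(supp_conj a g x).mpr hg, hx⟩
      · rw [Set.indicator_of_notMem hg, Set.indicator_of_notMem]
        rintro ⟨h, _⟩
        exact hg ((supp_conj a g x).mp h)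
    · rw [Set.indicator_of_notMem hx]
      apply le_of_eq
      apply Finset.sum_eq_zero
      intro g _
      rw [Set.indicator_of_notMem]
      rintro ⟨_, h⟩
      exact hx h

theorem measure_supp_conj (μ : Measure X) (hμ : ∀ g : G, MeasurePreserving (fun x : X => g • x) μ μ)
    (hm : ∀ g : G, MeasurableSet (supp g : Set X)) (b f : G) :
    μ.real (supp (f * b * f⁻¹) : Set X) = μ.real (supp b : Set X) := by
  have h1 : (supp (f * b * f⁻¹) : Set X) = (fun x : X => f⁻¹ • x) ⁻¹' (supp b : Set X) := by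
    ext x
    have h2 := supp_conj b f⁻¹ x
    rw [inv_inv] at h2
    exact h2
  rw [h1, measureReal_def, measureReal_def, (hμ _).measure_preimage (hm b).nullMeasurableSet]

/-- one step of the iteration -/
theorem step (μ : Measure X) [IsProbabilityMeasure μ]
    (hμ : ∀ g : G, MeasurePreserving (fun x : X => g • x) μ μ)
    (hm : ∀ g : G, MeasurableSet (supp g : Set X))
    (ℓ : G → ℕ) (hℓmul : ∀ a b, ℓ (a * b) ≤ ℓ a + ℓ b) (hℓinv : ∀ a, ℓ a⁻¹ = ℓ a)
    (F : Finset G) (hF : ∀ x : G, x ∉ fc G → ∀ y : G, y ∉ fc G →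
      ∃ g ∈ F, cm (g⁻¹ * x * g) y ∉ fc G)
    (Ω : Finset G) (hne : Ω.Nonempty)
    (a : G) (hafc : a ∉ fc G) (η : ℝ)
    (ha : ∀ x : X, (∑ g ∈ Ω, (supp a : Set X).indicator (fun _ => (1 : ℝ)) (g • x)) ≤ η * Ω.card)
    (C : ℕ) (hC : ∀ g ∈ Ω, ∀ f ∈ F, 2 * ℓ a + 4 * ℓ g + 4 * ℓ f ≤ C) (b : G) (hb : b ∉ fc G) :
    ∃ b' : G, b' ∉ fc G ∧ μ.real (supp b' : Set X) ≤ (3 * F.card * η) * μ.real (supp b : Set X) ∧
      ℓ b' ≤ 2 * ℓ b + C := by
  classical
  have hone : ∀ f ∈ F, ∑ g ∈ Ω, μ.real (supp ((g * f)⁻¹ * a * (g * f)) ∩ supp b : Set X) ≤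
      η * Ω.card * μ.real (supp b : Set X) := by
    intro f _
    have h1 := average μ hm a (f * b * f⁻¹) Ω (η * Ω.card) ha
    rw [measure_supp_conj μ hμ hm] at h1
    refine le_trans (le_of_eq ?_) h1
    apply Finset.sum_congr rfl
    intro g _
    have h2 : (supp (g⁻¹ * a * g) ∩ supp (f * b * f⁻¹) : Set X) =
        (fun x : X => f⁻¹ • x) ⁻¹' (supp ((g * f)⁻¹ * a * (g * f)) ∩ supp b : Set X) := by
      ext x
      have h3 := supp_conj b f⁻¹ x
      rw [inv_inv] at h3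
      have h4 := supp_conj (g⁻¹ * a * g) f (f⁻¹ • x)
      rw [smul_inv_smul] at h4
      have h5 : f⁻¹ * (g⁻¹ * a * g) * f = (g * f)⁻¹ * a * (g * f) := by group
      rw [h5] at h4
      exact and_congr h4.symm h3
    rw [h2, measureReal_def, measureReal_def,
      (hμ _).measure_preimage ((hm _).inter (hm b)).nullMeasurableSet]
  have hsum : ∑ g ∈ Ω, ∑ f ∈ F, μ.real (supp ((g * f)⁻¹ * a * (g * f)) ∩ supp b : Set X) ≤
      ∑ _g ∈ Ω, (F.card * η * μ.real (supp b : Set X)) := by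
    rw [Finset.sum_comm]
    refine (Finset.sum_le_sum hone).trans (le_of_eq ?_)
    rw [Finset.sum_const, Finset.sum_const, nsmul_eq_mul, nsmul_eq_mul]
    ring
  obtain ⟨g, hg, hle⟩ := Finset.exists_le_of_sum_le hne hsum
  have h1 : g⁻¹ * a * g ∉ fc G := by
    intro h
    apply hafc
    have h2 := fc_conj' h g
    have h3 : g * (g⁻¹ * a * g) * g⁻¹ = a := by group
    rwa [h3] at h2
  obtain ⟨f, hf, h2⟩ := hF _ h1 b hb
  have h3 : f⁻¹ * (g⁻¹ * a * g) * f = (g * f)⁻¹ * a * (g * f) := by group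
  rw [h3] at h2
  have hle2 : μ.real (supp ((g * f)⁻¹ * a * (g * f)) ∩ supp b : Set X) ≤
      F.card * η * μ.real (supp b : Set X) :=
    (Finset.single_le_sum (f := fun f => μ.real (supp ((g * f)⁻¹ * a * (g * f)) ∩ supp b : Set X))
      (fun _ _ => measureReal_nonneg) hf).trans hle
  refine ⟨cm ((g * f)⁻¹ * a * (g * f)) b, h2, ?_, ?_⟩
  · refine (measure_supp_cm μ hμ hm _ _).trans ?_
    calc 3 * μ.real (supp ((g * f)⁻¹ * a * (g * f)) ∩ supp b : Set X) ≤
        3 * (F.card * η * μ.real (supp b : Set X)) := by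
          exact mul_le_mul_of_nonneg_left hle2 (by norm_num)
      _ = (3 * F.card * η) * μ.real (supp b : Set X) := by ring
  · have h4 : ℓ ((g * f)⁻¹ * a * (g * f)) ≤ ℓ a + 2 * ℓ g + 2 * ℓ f := by
      have h5 := hℓmul ((g * f)⁻¹ * a) (g * f)
      have h6 := hℓmul (g * f)⁻¹ a
      have h7 := hℓmul g f
      rw [hℓinv] at h6
      omega
    have h5 : ℓ (cm ((g * f)⁻¹ * a * (g * f)) b) ≤
        2 * ℓ ((g * f)⁻¹ * a * (g * f)) + 2 * ℓ b := by
      unfold cm
      generalize (g * f)⁻¹ * a * (g * f) = u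
      have h6 := hℓmul (u * b * u⁻¹) b⁻¹
      have h7 := hℓmul (u * b) u⁻¹
      have h8 := hℓmul u b
      rw [hℓinv] at h6 h7
      omega
    have h6 := hC g hg f hf
    omega

theorem small_supports (μ : Measure X) [IsProbabilityMeasure μ]
    (hμ : ∀ g : G, MeasurePreserving (fun x : X => g • x) μ μ)
    (hm : ∀ g : G, MeasurableSet (supp g : Set X))
    (ℓ : G → ℕ) (hℓmul : ∀ a b, ℓ (a * b) ≤ ℓ a + ℓ b) (hℓinv : ∀ a, ℓ a⁻¹ = ℓ a)
    (hsmall : ∀ η : ℝ, 0 < η → ∃ a : G, a ∉ fc G ∧ ∃ Ω : Finset G, Ω.Nonempty ∧ ∀ x : X,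
      (∑ g ∈ Ω, (supp a : Set X).indicator (fun _ => (1 : ℝ)) (g • x)) ≤ η * Ω.card)
    (c : ℝ) (hc : 0 < c) (D : ℕ)
    (hlow : ∀ b : G, b ∉ fc G → c ≤ μ.real (supp b : Set X) * ((ℓ b : ℝ) + 1) ^ D) :
    CI G ∨ ∃ L : Subgroup G, LocFin L ∧ (L : Set G).Infinite := by
  by_contra hcon
  push Not at hcon
  obtain ⟨hG, h⟩ := hcon
  obtain ⟨F, hF⟩ := pairs hG h
  have hFpos : 0 < F.card := by
    obtain ⟨a, ha, _⟩ := hsmall 1 one_pos
    obtain ⟨g, hg, _⟩ := hF a ha a ha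
    exact Finset.card_pos.mpr ⟨g, hg⟩
  have hFpos' : (0 : ℝ) < F.card := by exact_mod_cast hFpos
  let η : ℝ := 1 / (3 * F.card * 2 ^ (D + 1))
  have hη : 0 < η := by positivity
  have hη' : 3 * F.card * η = 1 / 2 ^ (D + 1) := by
    show 3 * (F.card : ℝ) * (1 / (3 * F.card * 2 ^ (D + 1))) = 1 / 2 ^ (D + 1)
    field_simp
  obtain ⟨a, hafc, Ω, hne, ha⟩ := hsmall η hη
  let C : ℕ := (Ω ×ˢ F).sup (fun p => 2 * ℓ a + 4 * ℓ p.1 + 4 * ℓ p.2)
  have hC : ∀ g ∈ Ω, ∀ f ∈ F, 2 * ℓ a + 4 * ℓ g + 4 * ℓ f ≤ C := fun g hg f hf =>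
    Finset.le_sup (f := fun p : G × G => 2 * ℓ a + 4 * ℓ p.1 + 4 * ℓ p.2)
      (Finset.mem_product.mpr ⟨hg, hf⟩ : (g, f) ∈ Ω ×ˢ F)
  have key : ∀ k : ℕ, ∃ b : G, b ∉ fc G ∧ μ.real (supp b : Set X) ≤ (1 / 2 ^ (D + 1)) ^ k ∧
      ℓ b + C + 1 ≤ 2 ^ k * (ℓ a + C + 1) := by
    intro k
    induction k with
    | zero =>
      refine ⟨a, hafc, ?_, by simp⟩
      rw [pow_zero]
      exact measureReal_le_one
    | succ k ih =>
      obtain ⟨b, hb, h1, h2⟩ := ih
      obtain ⟨b', hb', h3, h4⟩ := step μ hμ hm ℓ hℓmul hℓinv F hF Ω hne a hafc η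
        ha C hC b hb
      refine ⟨b', hb', ?_, ?_⟩
      · rw [hη'] at h3
        refine h3.trans ?_
        rw [pow_succ, mul_comm]
        exact mul_le_mul_of_nonneg_right h1 (by positivity)
      · rw [pow_succ]
        have h5 : ℓ b' + C + 1 ≤ 2 * (ℓ b + C + 1) := by omega
        calc ℓ b' + C + 1 ≤ 2 * (ℓ b + C + 1) := h5
          _ ≤ 2 * (2 ^ k * (ℓ a + C + 1)) := Nat.mul_le_mul_left 2 h2
          _ = 2 ^ k * 2 * (ℓ a + C + 1) := by ring
  let L : ℝ := (ℓ a + C + 1 : ℕ)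
  have hLpos : 0 < L := by
    show (0 : ℝ) < ((ℓ a + C + 1 : ℕ) : ℝ)
    positivity
  obtain ⟨k, hk⟩ := pow_unbounded_of_one_lt (L ^ D / c) (one_lt_two : (1 : ℝ) < 2)
  obtain ⟨b, hb, h1, h2⟩ := key k
  have h3 := hlow b hb
  have h4 : (ℓ b : ℝ) + 1 ≤ 2 ^ k * L := by
    have h5 : ((ℓ b + C + 1 : ℕ) : ℝ) ≤ ((2 ^ k * (ℓ a + C + 1) : ℕ) : ℝ) := by exact_mod_cast h2
    have h6 : ((ℓ b + C + 1 : ℕ) : ℝ) = (ℓ b : ℝ) + C + 1 := by push_cast; ring
    have h7 : ((2 ^ k * (ℓ a + C + 1) : ℕ) : ℝ) = 2 ^ k * L := by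
      show _ = 2 ^ k * ((ℓ a + C + 1 : ℕ) : ℝ)
      push_cast
      ring
    have h8 : (0 : ℝ) ≤ C := Nat.cast_nonneg _
    rw [h6, h7] at h5
    linarith
  have h5 : c ≤ (1 / 2 ^ (D + 1)) ^ k * (2 ^ k * L) ^ D := by
    refine h3.trans ?_
    apply mul_le_mul h1 _ (by positivity) (by positivity)
    exact pow_le_pow_left₀ (by positivity) h4 D
  have h6 : ((1 : ℝ) / 2 ^ (D + 1)) ^ k * (2 ^ k * L) ^ D = L ^ D / 2 ^ k := by
    rw [mul_pow, one_div, inv_pow, ← pow_mul, ← pow_mul]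
    rw [show (D + 1) * k = k * D + k by ring, pow_add]
    field_simp
  rw [h6] at h5
  have h7 : L ^ D < c * 2 ^ k := by
    rw [div_lt_iff₀ hc] at hk
    linarith
  have h8 : L ^ D / 2 ^ k < c := by
    rw [div_lt_iff₀ (by positivity)]
    exact h7
  linarith

end Pool.Agent.H67.CIP
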