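import Pool.Agent.Helper67_CIP.Pairs

/-!
An infinite group in which every finite subset generates a finite soluble subgroup has an infinite
commutative subgroup (the locally soluble case of the theorem of Hall, Kulatilaka and Kargapolov).
-/

namespace Pool.Agent.H67.CIP

open Pool.Agent.H50.CIG

/-- a finite commutative group acting fixed-point-freely on a nontrivial finite commutative group
is cyclic -/
theorem cyclic_of_free {A : Type*} [CommGroup A] [Finite A] {M : Type*} [AddCommGroup M]
    [Finite M] [Nontrivial M] (ρ : Representation ℤ A M)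
    (hfree : ∀ a : A, a ≠ 1 → ∀ m : M, ρ a m = m → m = 0) : IsCyclic A := by
  classical
  have : Finite ρ.asModule := inferInstanceAs (Finite M)
  have : Nontrivial ρ.asModule := inferInstanceAs (Nontrivial M)
  obtain ⟨V, hV⟩ := IsAtomic.exists_atom (Submodule (MonoidAlgebra ℤ A) ρ.asModule)
  have hsimple : IsSimpleModule (MonoidAlgebra ℤ A) V := isSimpleModule_iff_isAtom.mpr hV
  have hmax := IsSimpleModule.annihilator_isMaximal (R := MonoidAlgebra ℤ A) (M := V)
  set I := Module.annihilator (MonoidAlgebra ℤ A) V with hI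
  have : I.IsPrime := hmax.isPrime
  let f : A →* (MonoidAlgebra ℤ A ⧸ I) :=
    ((Ideal.Quotient.mk I : MonoidAlgebra ℤ A →+* _) : MonoidAlgebra ℤ A →* _).comp
      (MonoidAlgebra.of ℤ A)
  apply isCyclic_of_injective_ringHom f
  rw [injective_iff_map_eq_one]
  intro a ha
  by_contra hne
  have := IsSimpleModule.nontrivial (MonoidAlgebra ℤ A) V
  obtain ⟨v, hv⟩ := exists_ne (0 : V)
  have h1 : MonoidAlgebra.of ℤ A a - 1 ∈ I := by
    rw [← Ideal.Quotient.eq_zero_iff_mem, map_sub, map_one, sub_eq_zero]
    exact ha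
  rw [hI, Module.mem_annihilator] at h1
  have h2 := h1 v
  rw [sub_smul, one_smul, sub_eq_zero] at h2
  have h3 : MonoidAlgebra.of ℤ A a • (v : ρ.asModule) = v := congrArg Subtype.val h2
  have h4 : ρ a (ρ.asModuleEquiv v) = ρ.asModuleEquiv v := by
    have h5 := ρ.asModuleEquiv_symm_map_rho a (ρ.asModuleEquiv v)
    rw [LinearEquiv.symm_apply_apply, h3] at h5
    have h6 := congrArg ρ.asModuleEquiv h5
    rwa [LinearEquiv.apply_symm_apply] at h6
  have h5 := hfree a hne _ h4
  apply hv
  apply Subtype.ext
  have h6 := congrArg ρ.asModuleEquiv.symm h5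
  rwa [LinearEquiv.symm_apply_apply, map_zero] at h6

variable {Q : Type*} [Group Q]

/-- the last nontrivial derived term -/
theorem exists_abelian_normal (P : Subgroup Q) [Group.IsSolvable P] (hP : P ≠ ⊥) :
    ∃ M : Subgroup Q, M ≤ P ∧ M ≠ ⊥ ∧ (∀ x ∈ M, ∀ y ∈ M, x * y = y * x) ∧
      ∀ g ∈ P, ∀ x ∈ M, g * x * g⁻¹ ∈ M := by
  classical
  have h0 : ∃ n, derivedSeries P n = ⊥ := Group.IsSolvable.solvable
  have hpos : Nat.find h0 ≠ 0 := by
    intro h
    have h1 := Nat.find_spec h0
    rw [h, derivedSeries_zero] at h1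
    apply hP
    rw [eq_bot_iff]
    intro x hx
    have h2 : (⟨x, hx⟩ : P) ∈ (⊤ : Subgroup P) := Subgroup.mem_top _
    rw [h1, Subgroup.mem_bot] at h2
    exact Subgroup.mem_bot.mpr (congrArg Subtype.val h2)
  obtain ⟨n, hn⟩ := Nat.exists_eq_succ_of_ne_zero hpos
  have h1 := Nat.find_spec h0
  rw [hn, Nat.succ_eq_add_one, derivedSeries_succ] at h1
  have h2 : derivedSeries P n ≠ ⊥ := Nat.find_min h0 (by omega)
  have hnorm := derivedSeries_normal P n
  refine ⟨(derivedSeries P n).map P.subtype, ?_, ?_, ?_, ?_⟩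
  · rintro _ ⟨x, _, rfl⟩
    exact x.2
  · intro h
    apply h2
    rwa [Subgroup.map_eq_bot_iff_of_injective _ P.subtype_injective] at h
  · rintro _ ⟨x, hx, rfl⟩ _ ⟨y, hy, rfl⟩
    have h3 : ⁅derivedSeries P n, derivedSeries P n⁆ = ⊥ := h1
    rw [Subgroup.commutator_eq_bot_iff_le_centralizer] at h3
    have h4 := (Subgroup.mem_centralizer_iff.mp (h3 hx)) y hy
    rw [← map_mul, ← map_mul, h4]
  · rintro g hg _ ⟨x, hx, rfl⟩
    exact ⟨⟨g, hg⟩ * x * ⟨g, hg⟩⁻¹, hnorm.conj_mem x hx _, rfl⟩

/-- fixed-point-free conjugation of commutative finite subgroups -/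
theorem cyclic_of_free_conj (K N : Subgroup Q) (hKf : (K : Set Q).Finite)
    (hNf : (N : Set Q).Finite) (hK : ∀ x ∈ K, ∀ y ∈ K, x * y = y * x)
    (hN : ∀ x ∈ N, ∀ y ∈ N, x * y = y * x) (hN0 : N ≠ ⊥)
    (hnorm : ∀ g ∈ K, ∀ x ∈ N, g * x * g⁻¹ ∈ N)
    (hfree : ∀ g ∈ K, g ≠ 1 → ∀ x ∈ N, g * x = x * g → x = 1) :
    ∃ m ∈ K, ∀ x ∈ K, ∃ n : ℤ, m ^ n = x := by
  classical
  let iK : CommGroup K := { (inferInstance : Group K) with
    mul_comm := fun x y => Subtype.ext (hK x x.2 y y.2) }
  let iN : CommGroup N := { (inferInstance : Group N) with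
    mul_comm := fun x y => Subtype.ext (hN x x.2 y y.2) }
  have : Finite K := hKf
  have : Finite N := hNf
  have : Finite (Additive N) := inferInstanceAs (Finite N)
  have : Nontrivial N := by
    rw [← not_subsingleton_iff_nontrivial]
    intro hs
    apply hN0
    rw [eq_bot_iff]
    intro x hx
    exact Subgroup.mem_bot.mpr (congrArg Subtype.val (hs.elim ⟨x, hx⟩ (1 : N)))
  have : Nontrivial (Additive N) := inferInstanceAs (Nontrivial N)
  let φ : K → (Additive N →+ Additive N) := fun g =>
    { toFun := fun x => Additive.ofMul ⟨(g : Q) * (Additive.toMul x : N) * (g : Q)⁻¹,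
        hnorm g g.2 _ (Additive.toMul x).2⟩
      map_zero' := by
        apply Additive.toMul.injective
        apply Subtype.ext
        show (g : Q) * ((1 : N) : Q) * (g : Q)⁻¹ = ((1 : N) : Q)
        simp
      map_add' := by
        intro x y
        apply Additive.toMul.injective
        apply Subtype.ext
        show (g : Q) * (((Additive.toMul x : N) * (Additive.toMul y : N) : N) : Q) * (g : Q)⁻¹ =
          ((g : Q) * (Additive.toMul x : N) * (g : Q)⁻¹) *
            ((g : Q) * (Additive.toMul y : N) * (g : Q)⁻¹)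
        push_cast
        group }
  let ρ : Representation ℤ K (Additive N) :=
    { toFun := fun g => (φ g).toIntLinearMap
      map_one' := by
        refine LinearMap.ext fun x => ?_
        apply Additive.toMul.injective
        apply Subtype.ext
        show ((1 : K) : Q) * (Additive.toMul x : N) * ((1 : K) : Q)⁻¹ = (Additive.toMul x : N)
        simp
      map_mul' := by
        intro g h
        refine LinearMap.ext fun x => ?_
        apply Additive.toMul.injective
        apply Subtype.ext
        show ((g * h : K) : Q) * (Additive.toMul x : N) * ((g * h : K) : Q)⁻¹ =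
          (g : Q) * ((h : Q) * (Additive.toMul x : N) * (h : Q)⁻¹) * (g : Q)⁻¹
        push_cast
        group }
  have hcyc : IsCyclic K := cyclic_of_free ρ (by
    intro g hg x hx
    have h1 : (g : Q) * (Additive.toMul x : N) * (g : Q)⁻¹ = (Additive.toMul x : N) :=
      congrArg (fun z : Additive N => ((Additive.toMul z : N) : Q)) hx
    have h2 : (g : Q) ≠ 1 := fun h => hg (Subtype.ext h)
    rw [mul_inv_eq_iff_eq_mul] at h1
    have h3 := hfree g g.2 h2 _ (Additive.toMul x).2 h1
    apply Additive.toMul.injective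
    exact Subtype.ext h3)
  obtain ⟨m, hm⟩ := hcyc.exists_generator
  refine ⟨m, m.2, ?_⟩
  intro x hx
  obtain ⟨n, hn⟩ := Subgroup.mem_zpowers_iff.mp (hm ⟨x, hx⟩)
  exact ⟨n, by rw [← Subgroup.coe_zpow, hn]⟩

open Filter in
/-- an infinite locally finite and locally soluble group has a nontrivial element with infinite
centralizer -/
theorem locsol_aux [Infinite Q]
    (hloc : ∀ s : Finset Q, ((Subgroup.closure (s : Set Q) : Subgroup Q) : Set Q).Finite ∧
      Group.IsSolvable (Subgroup.closure (s : Set Q)))
    (hcen : ∀ x : Q, x ≠ 1 → (Subgroup.centralizer {x} : Set Q).Finite) : False := by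
  classical
  have hex : ∀ s : Finset Q, ∃ M : Subgroup Q, M ≤ Subgroup.closure (s : Set Q) ∧
      (Subgroup.closure (s : Set Q) ≠ ⊥ → M ≠ ⊥) ∧ (∀ x ∈ M, ∀ y ∈ M, x * y = y * x) ∧
      ∀ g ∈ Subgroup.closure (s : Set Q), ∀ x ∈ M, g * x * g⁻¹ ∈ M := by
    intro s
    by_cases hs : Subgroup.closure (s : Set Q) = ⊥
    · refine ⟨⊥, bot_le, fun h => absurd hs h, ?_, ?_⟩
      · intro x hx y hy
        rw [Subgroup.mem_bot] at hx hy
        rw [hx, hy]
      · intro g _ x hx
        rw [Subgroup.mem_bot] at hx ⊢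
        rw [hx]
        simp
    · have := (hloc s).2
      obtain ⟨M, h1, h2, h3, h4⟩ := exists_abelian_normal (Subgroup.closure (s : Set Q)) hs
      exact ⟨M, h1, fun _ => h2, h3, h4⟩
  choose M hMle hMne hMab hMn using hex
  -- every nontrivial element lies in only boundedly many of the M s
  have hZ : ∀ z : Q, z ≠ 1 → ∀ᶠ s in atTop, z ∉ M s := by
    intro z hz
    by_contra hcon
    have hfreq : ∃ᶠ s in atTop, z ∈ M s := by
      intro h
      exact hcon h
    have hCfin := hcen z hz
    have h𝒦 : {K : Subgroup Q | (K : Set Q) ⊆ (Subgroup.centralizer {z} : Set Q)}.Finite := by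
      have h1 : {T : Set Q | T ⊆ (Subgroup.centralizer {z} : Set Q)}.Finite :=
        hCfin.finite_subsets
      exact h1.preimage (f := fun K : Subgroup Q => (K : Set Q)) SetLike.coe_injective.injOn
    have hex2 : ∃ K : Subgroup Q, ∃ᶠ s in atTop, z ∈ M s ∧ M s = K := by
      by_contra hno
      push Not at hno
      have h1 : ∀ᶠ s in atTop, ∀ K ∈ {K : Subgroup Q |
          (K : Set Q) ⊆ (Subgroup.centralizer {z} : Set Q)}, ¬ (z ∈ M s ∧ M s = K) := by
        rw [Filter.eventually_all_finite h𝒦]
        intro K _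
        filter_upwards [hno K] with s hs h using hs h.1 h.2
      obtain ⟨s, hs1, hs2⟩ := (hfreq.and_eventually h1).exists
      refine hs2 (M s) ?_ ⟨hs1, rfl⟩
      intro x hx
      rw [SetLike.mem_coe, Subgroup.mem_centralizer_iff]
      rintro _ rfl
      exact hMab s _ hs1 x hx
    obtain ⟨K, hK⟩ := hex2
    obtain ⟨s₀, hs₀z, hs₀K⟩ := hK.exists
    have hzK : z ∈ K := hs₀K ▸ hs₀z
    have hKfin : (K : Set Q).Finite := by
      rw [← hs₀K]
      exact (hloc s₀).1.subset (hMle s₀)
    have hKn : ∀ g : Q, g⁻¹ * z * g ∈ K := by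
      intro g
      obtain ⟨s, ⟨_, hsK⟩, hs⟩ := (hK.and_eventually (eventually_ge_atTop {g})).exists
      have hg : g ∈ Subgroup.closure (s : Set Q) := by
        apply Subgroup.subset_closure
        exact hs (Finset.mem_singleton_self g)
      have h1 := hMn s g⁻¹ (Subgroup.inv_mem _ hg) z (hsK ▸ hzK)
      rw [inv_inv, hsK] at h1
      exact h1
    have hzfc : z ∉ fc Q := by
      intro h
      rw [mem_fc] at h
      have : Finite (Subgroup.centralizer {z}) := hCfin
      have h1 : Finite Q := finite_of_finiteIndex (Subgroup.centralizer {z})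
      exact not_finite Q
    apply conj_infinite hzfc
    refine hKfin.subset ?_
    rintro _ ⟨g, rfl⟩
    exact hKn g
  have hE : ∀ s₀ : Finset Q, ∀ᶠ s in atTop, ∀ x ∈ Subgroup.closure (s₀ : Set Q), x ≠ 1 →
      ∀ z ∈ M s, x * z = z * x → z = 1 := by
    intro s₀
    have hfin : (⋃ x ∈ ((Subgroup.closure (s₀ : Set Q) : Subgroup Q) : Set Q) \ {1},
        (Subgroup.centralizer {x} : Set Q) \ {1}).Finite := by
      refine Set.Finite.biUnion ((hloc s₀).1.subset Set.sdiff_subset) ?_
      rintro x ⟨_, hx⟩
      exact (hcen x hx).subset Set.sdiff_subset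
    have h1 : ∀ᶠ s in atTop, ∀ z ∈ (⋃ x ∈ ((Subgroup.closure (s₀ : Set Q) : Subgroup Q) : Set Q)
        \ {1}, (Subgroup.centralizer {x} : Set Q) \ {1}), z ∉ M s := by
      rw [Filter.eventually_all_finite hfin]
      intro z hz
      simp only [Set.mem_iUnion] at hz
      obtain ⟨x, _, _, hz1⟩ := hz
      exact hZ z hz1
    filter_upwards [h1] with s hs x hx hx1 z hz hxz
    by_contra hz1
    apply hs z _ hz
    simp only [Set.mem_iUnion]
    refine ⟨x, ⟨hx, hx1⟩, ?_, hz1⟩
    rw [SetLike.mem_coe, Subgroup.mem_centralizer_iff]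
    rintro _ rfl
    exact hxz
  have hcomm : ∀ x y : Q, x ≠ 1 → x * y = y * x := by
    intro x y hx1
    let s₀ : Finset Q := {x, y}
    have hxs : x ∈ Subgroup.closure (s₀ : Set Q) := Subgroup.subset_closure (by simp [s₀])
    have hys : y ∈ Subgroup.closure (s₀ : Set Q) := Subgroup.subset_closure (by simp [s₀])
    obtain ⟨s, hs, hs0⟩ := ((hE s₀).and (eventually_ge_atTop s₀)).exists
    obtain ⟨t, ht, hts⟩ := ((hE s).and (eventually_ge_atTop s)).exists
    have hle1 : Subgroup.closure (s₀ : Set Q) ≤ Subgroup.closure (s : Set Q) :=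
      Subgroup.closure_mono (by exact_mod_cast hs0)
    have hle2 : Subgroup.closure (s : Set Q) ≤ Subgroup.closure (t : Set Q) :=
      Subgroup.closure_mono (by exact_mod_cast hts)
    have hne0 : Subgroup.closure (s₀ : Set Q) ≠ ⊥ := by
      intro h
      rw [h, Subgroup.mem_bot] at hxs
      exact hx1 hxs
    have hnes : Subgroup.closure (s : Set Q) ≠ ⊥ := fun h => hne0 (le_bot_iff.mp (h ▸ hle1))
    have hnet : Subgroup.closure (t : Set Q) ≠ ⊥ := fun h => hnes (le_bot_iff.mp (h ▸ hle2))
    obtain ⟨m, hmM, hm⟩ := cyclic_of_free_conj (M s) (M t) ((hloc s).1.subset (hMle s))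
      ((hloc t).1.subset (hMle t)) (hMab s) (hMab t) (hMne t hnet)
      (fun g hg z hz => hMn t g (hle2 (hMle s hg)) z hz)
      (fun g hg hg1 z hz hgz => ht g (hMle s hg) hg1 z hz hgz)
    have hm1 : m ≠ 1 := by
      rintro rfl
      apply hMne s hnes
      rw [eq_bot_iff]
      intro z hz
      obtain ⟨n, hn⟩ := hm z hz
      rw [one_zpow] at hn
      exact Subgroup.mem_bot.mpr hn.symm
    obtain ⟨a, ha⟩ := hm _ (hMn s x (hle1 hxs) m hmM)
    obtain ⟨b, hb⟩ := hm _ (hMn s y (hle1 hys) m hmM)
    have h1 : (x * y) * m * (x * y)⁻¹ = m ^ (a * b) := by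
      calc (x * y) * m * (x * y)⁻¹ = x * (y * m * y⁻¹) * x⁻¹ := by group
        _ = x * m ^ b * x⁻¹ := by rw [hb]
        _ = (x * m * x⁻¹) ^ b := by rw [conj_zpow]
        _ = m ^ (a * b) := by rw [← ha, zpow_mul]
    have h2 : (y * x) * m * (y * x)⁻¹ = m ^ (a * b) := by
      calc (y * x) * m * (y * x)⁻¹ = y * (x * m * x⁻¹) * y⁻¹ := by group
        _ = y * m ^ a * y⁻¹ := by rw [ha]
        _ = (y * m * y⁻¹) ^ a := by rw [conj_zpow]
        _ = m ^ (a * b) := by rw [← hb, ← zpow_mul, mul_comm]
    have h3 : ((y * x)⁻¹ * (x * y)) * m = m * ((y * x)⁻¹ * (x * y)) := by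
      have h4 : (x * y) * m * (x * y)⁻¹ = (y * x) * m * (y * x)⁻¹ := h1.trans h2.symm
      calc ((y * x)⁻¹ * (x * y)) * m = (y * x)⁻¹ * ((x * y) * m * (x * y)⁻¹) * (x * y) := by group
        _ = (y * x)⁻¹ * ((y * x) * m * (y * x)⁻¹) * (x * y) := by rw [h4]
        _ = m * ((y * x)⁻¹ * (x * y)) := by group
    have h4 : (y * x)⁻¹ * (x * y) ∈ Subgroup.closure (s₀ : Set Q) :=
      Subgroup.mul_mem _ (Subgroup.inv_mem _ (Subgroup.mul_mem _ hys hxs))
        (Subgroup.mul_mem _ hxs hys)
    by_contra hxy
    have h5 : (y * x)⁻¹ * (x * y) ≠ 1 := by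
      intro h
      apply hxy
      exact (inv_mul_eq_one.mp h).symm
    exact hm1 (hs _ h4 h5 m hmM h3)
  obtain ⟨x, hx⟩ := exists_ne (1 : Q)
  have h1 := hcen x hx
  have h2 : (Subgroup.centralizer {x} : Set Q) = Set.univ := by
    rw [Set.eq_univ_iff_forall]
    intro y
    rw [SetLike.mem_coe, Subgroup.mem_centralizer_iff]
    rintro _ rfl
    exact hcomm _ y hx
  rw [h2] at h1
  exact Set.infinite_univ h1

/-- soluble case of the theorem of Hall, Kulatilaka and Kargapolov -/
theorem exists_commuting {L : Type*} [Group L] [Infinite L]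
    (hloc : ∀ s : Finset L, ((Subgroup.closure (s : Set L) : Subgroup L) : Set L).Finite ∧
      Group.IsSolvable (Subgroup.closure (s : Set L))) :
    ∃ S : Set L, S.Infinite ∧ ∀ x ∈ S, ∀ y ∈ S, x * y = y * x := by
  classical
  by_contra hno
  have hNA : ∀ S : Set L, (∀ x ∈ S, ∀ y ∈ S, x * y = y * x) → S.Finite := by
    intro S hS
    by_contra h
    exact hno ⟨S, h, hS⟩
  obtain ⟨S, hS⟩ := zorn_subset {S : Set L | (∀ x ∈ S, ∀ y ∈ S, x * y = y * x) ∧
      (Subgroup.centralizer S : Set L).Infinite} (by
    intro c hc hch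
    rcases c.eq_empty_or_nonempty with rfl | hne
    · refine ⟨∅, ⟨by simp, ?_⟩, by simp⟩
      have h1 : (Subgroup.centralizer (∅ : Set L) : Set L) = Set.univ := by
        rw [Set.eq_univ_iff_forall]
        intro y
        rw [SetLike.mem_coe, Subgroup.mem_centralizer_iff]
        rintro _ h
        exact absurd h (Set.notMem_empty _)
      rw [h1]
      exact Set.infinite_univ
    · have hcom : ∀ x ∈ ⋃₀ c, ∀ y ∈ ⋃₀ c, x * y = y * x := by
        rintro x ⟨s, hs, hx⟩ y ⟨t, ht, hy⟩
        rcases hch.total hs ht with hst | hts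
        · exact (hc ht).1 x (hst hx) y hy
        · exact (hc hs).1 x hx y (hts hy)
      obtain ⟨t, ht, hsub⟩ :=
        hch.directedOn.exists_mem_subset_of_finite_of_subset_sUnion hne (hNA _ hcom) le_rfl
      have heq : ⋃₀ c = t := le_antisymm hsub (Set.subset_sUnion_of_mem ht)
      refine ⟨⋃₀ c, ⟨hcom, ?_⟩, fun s hs => Set.subset_sUnion_of_mem hs⟩
      rw [heq]
      exact (hc ht).2)
  let H : Subgroup L := Subgroup.centralizer S
  have hHinf : (H : Set L).Infinite := hS.prop.2
  have hHmem : ∀ x ∈ H, ∀ s ∈ S, s * x = x * s := fun x hx s hs =>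
    (Subgroup.mem_centralizer_iff.mp hx) s hs
  have hSH : ∀ s ∈ S, s ∈ H := by
    intro s hs
    rw [Subgroup.mem_centralizer_iff]
    intro t ht
    exact hS.prop.1 t ht s hs
  have hcenS : ∀ x ∈ H, x ∉ S → ({y | y ∈ H ∧ x * y = y * x} : Set L).Finite := by
    intro x hx hxS
    by_contra hinf
    have h1 : insert x S ∈ {S : Set L | (∀ x ∈ S, ∀ y ∈ S, x * y = y * x) ∧
        (Subgroup.centralizer S : Set L).Infinite} := by
      constructor
      · rintro a (rfl | ha) b (rfl | hb)
        · rfl
        · exact (hHmem _ hx b hb).symm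
        · exact hHmem _ hx a ha
        · exact hS.prop.1 a ha b hb
      · refine Set.Infinite.mono ?_ (hinf : ({y | y ∈ H ∧ x * y = y * x} : Set L).Infinite)
        rintro y ⟨hy, hxy⟩
        rw [SetLike.mem_coe, Subgroup.mem_centralizer_iff]
        rintro s (rfl | hs)
        · exact hxy
        · exact hHmem y hy s hs
    exact hxS (hS.le_of_ge h1 (Set.subset_insert x S) (Set.mem_insert x S))
  have hH' : Infinite H := hHinf.to_subtype
  -- elements outside the centre of H have finite centralizers
  have hcH : ∀ x : H, x ∉ Subgroup.center H → (Subgroup.centralizer {x} : Set H).Finite := by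
    intro x hx
    have hxS : (x : L) ∉ S := by
      intro h
      apply hx
      rw [Subgroup.mem_center_iff]
      intro y
      apply Subtype.ext
      exact (hHmem y y.2 x h).symm
    have h1 := hcenS x x.2 hxS
    refine (h1.preimage (f := fun y : H => (y : L)) Subtype.val_injective.injOn).subset ?_
    intro y hy
    rw [SetLike.mem_coe, Subgroup.mem_centralizer_iff] at hy
    exact ⟨y.2, congrArg Subtype.val (hy x rfl)⟩
  have hZfin : (Subgroup.center H : Set H).Finite := by
    have h1 := hNA ((fun y : H => (y : L)) '' (Subgroup.center H : Set H)) (by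
      rintro _ ⟨x, hx, rfl⟩ _ ⟨y, hy, rfl⟩
      have h2 := (Subgroup.mem_center_iff.mp hx) y
      exact (congrArg Subtype.val h2).symm)
    exact h1.of_finite_image Subtype.val_injective.injOn
  have : Finite (Subgroup.center H) := hZfin
  let Q := H ⧸ Subgroup.center H
  have hQinf : Infinite Q := by
    rw [← not_finite_iff_infinite]
    intro hfin
    have h1 : (Subgroup.center H).FiniteIndex := Subgroup.finiteIndex_of_finite_quotient
    have h2 : Finite H := finite_of_finiteIndex (Subgroup.center H)
    exact not_finite H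
  have hlocH : ∀ s : Finset H, ((Subgroup.closure (s : Set H) : Subgroup H) : Set H).Finite ∧
      Group.IsSolvable (Subgroup.closure (s : Set H)) := by
    intro s
    have h1 := hloc (s.image (fun y : H => (y : L)))
    have h2 : (Subgroup.closure (s : Set H)).map H.subtype =
        Subgroup.closure ((s.image (fun y : H => (y : L)) : Finset L) : Set L) := by
      rw [MonoidHom.map_closure, Finset.coe_image]
      rfl
    rw [← h2] at h1
    constructor
    · have h3 := h1.1
      rw [Subgroup.coe_map] at h3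
      exact h3.of_finite_image Subtype.val_injective.injOn
    · have := h1.2
      exact Group.isSolvable_of_isSolvable_injective
        (f := ((Subgroup.closure (s : Set H)).equivMapOfInjective H.subtype
          H.subtype_injective).toMonoidHom) (MulEquiv.injective _)
  have hlocQ : ∀ s : Finset Q, ((Subgroup.closure (s : Set Q) : Subgroup Q) : Set Q).Finite ∧
      Group.IsSolvable (Subgroup.closure (s : Set Q)) := by
    intro s
    have h1 := hlocH (s.image (fun q : Q => q.out))
    have h2 : (Subgroup.closure ((s.image (fun q : Q => q.out) : Finset H) : Set H)).map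
        (QuotientGroup.mk' (Subgroup.center H)) = Subgroup.closure (s : Set Q) := by
      rw [MonoidHom.map_closure, Finset.coe_image, Set.image_image]
      congr 1
      ext q
      constructor
      · rintro ⟨r, hr, rfl⟩
        show ((r.out : H) : Q) ∈ _
        rw [QuotientGroup.out_eq']
        exact hr
      · intro hq
        exact ⟨q, hq, QuotientGroup.out_eq' q⟩
    rw [← h2]
    constructor
    · rw [Subgroup.coe_map]
      exact h1.1.image _
    · have := h1.2
      exact Group.isSolvable_of_surjective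
        (f := (QuotientGroup.mk' (Subgroup.center H)).subgroupMap
          (Subgroup.closure ((s.image (fun q : Q => q.out) : Finset H) : Set H)))
        (MonoidHom.subgroupMap_surjective _ _)
  have hcenQ : ∀ q : Q, q ≠ 1 → (Subgroup.centralizer {q} : Set Q).Finite := by
    intro q hq
    obtain ⟨x, rfl⟩ := QuotientGroup.mk_surjective q
    have hx : x ∉ Subgroup.center H := by
      intro h
      exact hq ((QuotientGroup.eq_one_iff x).mpr h)
    have hfin := hcH x hx
    let D : Subgroup H := (Subgroup.centralizer {(x : Q)}).comap (QuotientGroup.mk' _)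
    have hDmem : ∀ y ∈ D, y * x * y⁻¹ * x⁻¹ ∈ Subgroup.center H := by
      intro y hy
      have h1 : (x : Q) * (y : Q) = (y : Q) * (x : Q) :=
        (Subgroup.mem_centralizer_iff.mp hy) _ rfl
      rw [← QuotientGroup.eq_one_iff]
      show ((y : Q) * (x : Q) * (y : Q)⁻¹ * (x : Q)⁻¹) = 1
      rw [← h1]
      group
    have hDfi : ((Subgroup.centralizer {x}).subgroupOf D).FiniteIndex := by
      apply finiteIndex_of_fun (α := Subgroup.center H) _
        (fun y : D => ⟨(y : H) * x * (y : H)⁻¹ * x⁻¹, hDmem y y.2⟩)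
      intro a b hab
      have h1 : (a : H) * x * (a : H)⁻¹ * x⁻¹ = (b : H) * x * (b : H)⁻¹ * x⁻¹ :=
        congrArg Subtype.val hab
      rw [mul_left_inj] at h1
      rw [Subgroup.mem_subgroupOf, Subgroup.mem_centralizer_iff]
      intro w hw
      rw [Set.mem_singleton_iff.mp hw]
      push_cast
      have h2 : x * (a : H)⁻¹ = (a : H)⁻¹ * ((b : H) * x * (b : H)⁻¹) := by
        rw [← h1]
        group
      calc x * ((a : H)⁻¹ * b) = (x * (a : H)⁻¹) * b := by group
        _ = (a : H)⁻¹ * ((b : H) * x * (b : H)⁻¹) * b := by rw [h2]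
        _ = (a : H)⁻¹ * (b : H) * x := by group
    have hCD : Finite ((Subgroup.centralizer {x}).subgroupOf D) := by
      have h1 : Finite (Subgroup.centralizer {x} : Set H) := hfin
      refine Finite.of_injective
        (fun y : (Subgroup.centralizer {x}).subgroupOf D =>
          (⟨y.1.1, y.2⟩ : (Subgroup.centralizer {x} : Set H))) ?_
      intro y z hyz
      apply Subtype.ext
      apply Subtype.ext
      have h0 := congrArg Subtype.val hyz
      exact h0
    have hDfin : Finite D := finite_of_finiteIndex ((Subgroup.centralizer {x}).subgroupOf D)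
    have h3 : (D : Set H).Finite := Set.toFinite _
    refine (h3.image (fun y : H => (y : Q))).subset ?_
    intro r hr
    obtain ⟨y, rfl⟩ := QuotientGroup.mk_surjective r
    exact ⟨y, hr, rfl⟩
  exact locsol_aux hlocQ hcenQ

/-- an infinite locally finite, locally soluble subgroup gives two infinite commuting subgroups -/
theorem CI.of_locsol {G : Type*} [Group G] (L : Subgroup G) (hL : LocFin L)
    (hinf : (L : Set G).Infinite)
    (hsol : ∀ P : Subgroup G, P ≤ L → (P : Set G).Finite → Group.IsSolvable P) : CI G := by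
  classical
  have : Infinite L := hinf.to_subtype
  apply CI.of_subgroup (H := L)
  obtain ⟨S, hS, hcom⟩ := exists_commuting (L := L) (by
    intro s
    have h2 : (Subgroup.closure (s : Set L)).map L.subtype =
        Subgroup.closure ((s.image (fun y : L => (y : G)) : Finset G) : Set G) := by
      rw [MonoidHom.map_closure, Finset.coe_image]
      rfl
    have h1 := hL (s.image (fun y : L => (y : G))) (by
      intro x hx
      obtain ⟨y, _, rfl⟩ := Finset.mem_image.mp hx
      exact y.2)
    rw [← h2] at h1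
    constructor
    · rw [Subgroup.coe_map] at h1
      exact h1.of_finite_image Subtype.val_injective.injOn
    · have h3 : (Subgroup.closure (s : Set L)).map L.subtype ≤ L := by
        rintro _ ⟨y, _, rfl⟩
        exact y.2
      have := hsol _ h3 h1
      exact Group.isSolvable_of_isSolvable_injective
        (f := ((Subgroup.closure (s : Set L)).equivMapOfInjective L.subtype
          L.subtype_injective).toMonoidHom) (MulEquiv.injective _))
  exact CI.of_set S hS hcom

end Pool.Agent.H67.CIP
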