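import Pool.Agent.Helper67_CIP.Pairs

/-!
Groups of permutations of the integers with bounded displacement: the set of the integers which
change the side of 0, commutators, and shrinking.
-/

namespace Pool.Agent.H67.CIP

open Pool.Agent.H50.CIG

variable {G : Type*} [Group G] [MulAction G ℤ]

/-- the integers which change the side of 0 -/
def cross (g : G) : Set ℤ := {j : ℤ | ¬ (0 ≤ j ↔ 0 ≤ g • j)}

/-- displacement at most R -/
def Disp (R : ℕ) (g : G) : Prop := ∀ j : ℤ, |g • j - j| ≤ R

theorem Disp.mono {R R' : ℕ} (h : R ≤ R') {g : G} (hg : Disp R g) : Disp R' g := fun j =>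
  (hg j).trans (by exact_mod_cast h)

theorem Disp.mul {R R' : ℕ} {g h : G} (hg : Disp R g) (hh : Disp R' h) :
    Disp (R + R') (g * h) := by
  intro j
  rw [mul_smul]
  have h1 := hg (h • j)
  have h2 := hh j
  have h3 : g • h • j - j = (g • h • j - h • j) + (h • j - j) := by ring
  rw [h3]
  push_cast
  exact (abs_add_le _ _).trans (add_le_add h1 h2)

theorem Disp.inv {R : ℕ} {g : G} (hg : Disp R g) : Disp R g⁻¹ := by
  intro j
  have h1 := hg (g⁻¹ • j)
  rw [smul_inv_smul, abs_sub_comm] at h1
  exact h1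

theorem Disp.one : Disp 0 (1 : G) := by
  intro j
  simp

theorem cross_subset {R : ℕ} {g : G} (hg : Disp R g) :
    cross g ⊆ ((Finset.Icc (-(R : ℤ)) R : Finset ℤ) : Set ℤ) := by
  intro j hj
  have h1 := hg j
  rw [abs_le] at h1
  rw [Finset.mem_coe, Finset.mem_Icc]
  have h2 : ¬ (0 ≤ j ↔ 0 ≤ g • j) := hj
  by_contra hcon
  apply h2
  constructor
  · intro h; omega
  · intro h; omega

theorem cross_finite {R : ℕ} {g : G} (hg : Disp R g) : (cross g).Finite :=
  (Finset.finite_toSet _).subset (cross_subset hg)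

theorem cross_card {R : ℕ} {g : G} (hg : Disp R g) : (cross g).ncard ≤ 2 * R + 1 := by
  have h1 := Set.ncard_le_ncard (cross_subset hg) (Finset.finite_toSet _)
  rw [Set.ncard_coe_finset, Int.card_Icc] at h1
  omega

/-- b fixes the integers of absolute value at most r -/
def FixI (r : ℕ) (b : G) : Prop := ∀ j : ℤ, |j| ≤ r → b • j = j

theorem FixI.inv {r : ℕ} {b : G} (hb : FixI r b) : FixI r b⁻¹ := by
  intro j hj
  have h1 := hb j hj
  have h2 : b⁻¹ • j = b⁻¹ • (b • j) := by rw [h1]
  rw [h2, inv_smul_smul]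

theorem FixI.mono {r r' : ℕ} (h : r' ≤ r) {b : G} (hb : FixI r b) : FixI r' b := by
  intro j hj
  exact hb j (hj.trans (by exact_mod_cast h))

theorem fixI_cm {r R : ℕ} {u b : G} (hu : Disp R u) (hb : FixI (r + R) b) :
    FixI r (cm u b) := by
  intro j hj
  unfold cm
  rw [mul_smul, mul_smul, mul_smul]
  have h0 : |j| ≤ ((r + R : ℕ) : ℤ) := hj.trans (by push_cast; omega)
  rw [hb.inv j h0]
  have h1 : |u⁻¹ • j| ≤ ((r + R : ℕ) : ℤ) := by
    have h2 := hu.inv j
    have h3 : u⁻¹ • j = (u⁻¹ • j - j) + j := by ring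
    rw [h3]
    refine (abs_add_le _ _).trans ?_
    push_cast
    linarith
  rw [hb _ h1, smul_inv_smul]

theorem cross_cm {R : ℕ} {u b : G} (hu : Disp R u) (hb : FixI R b)
    (hfin : (cross b).Finite) :
    (cross (cm u b)).ncard ≤ 2 * (cross b ∩ {j : ℤ | u • j ≠ j}).ncard := by
  classical
  -- the image of cross (cm u b) under (b u)^-1
  have hkey : (fun j : ℤ => (b * u)⁻¹ • j) '' cross (cm u b) ⊆
      (cross b ∩ {j : ℤ | u • j ≠ j}) ∪
        ((fun j : ℤ => u⁻¹ • j) '' (cross b ∩ {j : ℤ | u • j ≠ j})) := by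
    rintro _ ⟨j, hj, rfl⟩
    have hj' : ¬ (0 ≤ j ↔ 0 ≤ cm u b • j) := hj
    have h1 : cm u b • j = (u * b) • ((b * u)⁻¹ • j) := by
      rw [← mul_smul]
      congr 1
      unfold cm
      group
    rw [h1] at hj'
    have h2 : j = (b * u) • ((b * u)⁻¹ • j) := by rw [smul_inv_smul]
    rw [h2] at hj'
    show (b * u)⁻¹ • j ∈ _
    rw [smul_inv_smul] at hj'
    have h3 : ¬ (0 ≤ (b * u) • ((b * u)⁻¹ • j) ↔ 0 ≤ (u * b) • ((b * u)⁻¹ • j)) := by
      rw [smul_inv_smul]
      exact hj'
    generalize (b * u)⁻¹ • j = k at h3 ⊢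
    rw [mul_smul, mul_smul] at h3
    -- sides: b u k versus u b k
    have hbu : (0 ≤ u • (b • k) ↔ 0 ≤ b • k) ↔ (0 ≤ u • k ↔ 0 ≤ k) := by
      by_cases hk : |k| ≤ R
      · rw [hb k hk]
      · have hbk : ¬ |b • k| ≤ R := by
          intro h4
          have h5 := hb _ h4
          have h6 : b • k = k := by
            have h7 := congrArg (fun z => b⁻¹ • z) h5
            simpa only [inv_smul_smul] using h7
          rw [h6] at h4
          exact hk h4
        have e1 : 0 ≤ u • (b • k) ↔ 0 ≤ b • k := by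
          have h4 := hu (b • k)
          rw [abs_le] at h4
          rw [abs_le, not_and_or] at hbk
          constructor <;> intro h5 <;> rcases hbk with hbk | hbk <;> omega
        have e2 : 0 ≤ u • k ↔ 0 ≤ k := by
          have h4 := hu k
          rw [abs_le] at h4
          rw [abs_le, not_and_or] at hk
          constructor <;> intro h5 <;> rcases hk with hk | hk <;> omega
        exact ⟨fun _ => e2, fun _ => e1⟩
    have hne : u • k ≠ k := by
      intro h4
      apply h3
      rw [h4] at hbu ⊢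
      exact (hbu.2 Iff.rfl).symm
    by_cases hbk : k ∈ cross b
    · exact Or.inl ⟨hbk, hne⟩
    · right
      refine ⟨u • k, ⟨?_, ?_⟩, by simp⟩
      · show ¬ (0 ≤ u • k ↔ 0 ≤ b • (u • k))
        have h5 : (0 ≤ k ↔ 0 ≤ b • k) := by
          by_contra h6
          exact hbk h6
        tauto
      · show u • (u • k) ≠ u • k
        intro h5
        apply hne
        have h7 := congrArg (fun z => u⁻¹ • z) h5
        simpa only [inv_smul_smul] using h7
  have hf2 : (cross b ∩ {j : ℤ | u • j ≠ j}).Finite := hfin.subset Set.inter_subset_left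
  have h1 := Set.ncard_le_ncard hkey (hf2.union (hf2.image _))
  rw [Set.ncard_image_of_injective _ (MulAction.injective _)] at h1
  refine h1.trans ((Set.ncard_union_le _ _).trans ?_)
  rw [Set.ncard_image_of_injective _ (MulAction.injective _)]
  omega

end Pool.Agent.H67.CIP
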