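import Pool.Agent.Helper67_CIP.HalfMain
import Pool.Agent.Helper22_CIG.FullMain

/-!
Amenable subgroups of topological full groups: threshold one half, under a mild growth condition.
-/

namespace Pool.Agent.H67.CIP

open Pool.Agent.H50.CIG Pool.Agent.H22.CIG Filter Topology
open scoped Pointwise

theorem sep_finite {X : Type*} (o : ℤ → X) (E : Finset ℤ) (A : Set X) :
    {j : ℤ | j ∈ E ∧ o j ∈ A}.Finite :=
  (Finset.finite_toSet E).subset fun _ h => h.1

/-- the uniform probability on finitely many points -/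
noncomputable def unif {X : Type*} (o : ℤ → X) (E : Finset ℤ) (hE : E.Nonempty) : FAP X where
  m A := ({j : ℤ | j ∈ E ∧ o j ∈ A}.ncard : ℝ) / E.card
  nonneg A := by positivity
  univ := by
    have h1 : (E.card : ℝ) ≠ 0 := by exact_mod_cast hE.card_pos.ne'
    have h2 : {j : ℤ | j ∈ E ∧ o j ∈ (Set.univ : Set X)} = (E : Set ℤ) := by
      ext j
      simp
    rw [h2, Set.ncard_coe_finset, div_self h1]
  add A B hAB := by
    rw [← add_div]
    congr 1
    have h1 : {j : ℤ | j ∈ E ∧ o j ∈ A ∪ B} =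
        {j : ℤ | j ∈ E ∧ o j ∈ A} ∪ {j : ℤ | j ∈ E ∧ o j ∈ B} := by
      ext j
      constructor
      · rintro ⟨h, h' | h'⟩
        · exact Or.inl ⟨h, h'⟩
        · exact Or.inr ⟨h, h'⟩
      · rintro (⟨h, h'⟩ | ⟨h, h'⟩)
        · exact ⟨h, Or.inl h'⟩
        · exact ⟨h, Or.inr h'⟩
    rw [h1, Set.ncard_union_eq _ (sep_finite o E A) (sep_finite o E B)]
    · push_cast
      rfl
    · rw [Set.disjoint_left]
      intro j hj hj'
      exact Set.disjoint_left.mp hAB hj.2 hj'.2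

theorem unif_m {X : Type*} (o : ℤ → X) (E : Finset ℤ) (hE : E.Nonempty) (A : Set X)
    [DecidablePred fun j => o j ∈ A] :
    (unif o E hE).m A = ((E.filter fun j => o j ∈ A).card : ℝ) / E.card := by
  show ({j : ℤ | j ∈ E ∧ o j ∈ A}.ncard : ℝ) / E.card = _
  have h1 : {j : ℤ | j ∈ E ∧ o j ∈ A} = ((E.filter fun j => o j ∈ A : Finset ℤ) : Set ℤ) := by
    ext j
    simp
  rw [h1, Set.ncard_coe_finset]

variable {X : Type*} [TopologicalSpace X] {T : X ≃ₜ X} {G : Type*} [Group G] [MulAction G X]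

/-- the action on the orbit of x -/
@[reducible] def orbAct (p : Piece T G) (x : X) : MulAction G ℤ where
  smul g j := p.n g ((T ^ j) x) + j
  one_smul j := by
    show p.n 1 ((T ^ j) x) + j = j
    rw [p.one, zero_add]
  mul_smul g h j := by
    show p.n (g * h) ((T ^ j) x) + j =
      p.n g ((T ^ (p.n h ((T ^ j) x) + j)) x) + (p.n h ((T ^ j) x) + j)
    rw [p.mul, p.smul_zpow, add_assoc]

theorem half_full (p : Piece T G) [CompactSpace X] [Nonempty X] [FaithfulSMul G X]
    (hT : ∀ x : X, Dense (Set.range fun i : ℤ => (T ^ i) x))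
    (Ω : ℕ → Finset G) (hΩ : ∀ n, (Ω n).Nonempty)
    (hF : ∀ h : G, Tendsto (fun n => prop (Ω n) (fun g => h * g ∉ Ω n)) atTop (𝓝 0))
    (hinv : ∀ m : FAP X, (∀ (g : G) (S : Set X), m.m {x | g • x ∈ S} = m.m S) →
      ∃ a : G, a ∉ fc G ∧ m.m (supp a) < 1 / 2)
    [DecidableEq G] (S : Finset G)
    (hgrow : ∀ K : ℝ, ∃ n : ℕ, 2 ≤ n ∧ Real.exp (K * Real.log n ^ 2) ≤ ((S ^ n).card : ℝ)) :
    CI G ∨ ∃ L : Subgroup G, LocFin L ∧ (L : Set G).Infinite := by
  classical
  by_contra hcon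
  push Not at hcon
  obtain ⟨hCI, hL⟩ := hcon
  obtain ⟨x⟩ := ‹Nonempty X›
  obtain ⟨C, δ, hδ0, hδ1, hC⟩ := choose_conj hCI hL Ω hΩ hF (1 / 2) (by norm_num) hinv
  let _ : MulAction G ℤ := orbAct p x
  have hsm : ∀ (g : G) (j : ℤ), g • j = p.n g ((T ^ j) x) + j := fun _ _ => rfl
  have hΦ : (fc G : Set G).Finite := fc_finite hCI
  refine half_contra hΦ ?_ ?_ ?_ hδ0 hδ1 C ?_ S hgrow
  · have hfin : (p.keep x : Set G).Finite := hL _ (p.keep_locFin hT x)
    refine hfin.subset ?_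
    intro g hg
    show p.Keeps x g
    intro j
    have h1 := hg j
    rw [hsm, add_comm] at h1
    exact h1
  · intro g hg
    apply FaithfulSMul.eq_of_smul_eq_smul (α := X)
    intro y
    rw [one_smul, ← p.eq_zero_iff]
    have hcl : IsClosed {y : X | p.n g y = 0} :=
      isClosed_singleton.preimage (p.cont g)
    have hsub : Set.range (fun i : ℤ => (T ^ i) x) ⊆ {y : X | p.n g y = 0} := by
      rintro _ ⟨i, rfl⟩
      have h1 := hg i
      rw [hsm] at h1
      show p.n g ((T ^ i) x) = 0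
      omega
    have h2 := hcl.closure_subset_iff.2 hsub
    rw [(hT x).closure_eq] at h2
    exact h2 (Set.mem_univ y)
  · intro g
    obtain ⟨R, hR⟩ := cont_bound (p.n g) (p.cont g)
    refine ⟨R, fun j => ?_⟩
    rw [hsm, add_sub_cancel_right]
    exact hR _
  · intro E hE b hb
    obtain ⟨u, hu, hcm, hm⟩ := hC (unif (fun j : ℤ => (T ^ j) x) E hE) b hb
    refine ⟨u, hu, hcm, ?_⟩
    rw [unif_m, div_le_iff₀ (by exact_mod_cast hE.card_pos)] at hm
    refine le_trans (le_of_eq ?_) hm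
    congr 2
    ext j
    rw [Finset.mem_filter, Finset.mem_filter]
    apply and_congr_right
    intro _
    show ¬ (u • j = j) ↔ ¬ (u • (T ^ j) x = (T ^ j) x)
    rw [not_iff_not, ← p.eq_zero_iff, hsm]
    constructor <;> intro h <;> omega

end Pool.Agent.H67.CIP
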