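import Pool.Agent.Helper67_CIP.Iter
import Mathlib

/-!
Contradiction from the growth condition.
-/

namespace Pool.Agent.H67.CIP

open Pool.Agent.H50.CIG
open scoped Pointwise

variable {G : Type*} [Group G] [MulAction G ℤ]

/-- one scale -/
theorem half_scale [DecidableEq G] (hΦ : (fc G : Set G).Finite)
    (hkeep : {g : G | ∀ j : ℤ, 0 ≤ j ↔ 0 ≤ g • j}.Finite)
    (hfaith : ∀ g : G, (∀ j : ℤ, g • j = j) → g = 1)
    (hdisp : ∀ g : G, ∃ R : ℕ, Disp R g) {R : ℕ} {δ : ℝ} (hδ : 0 ≤ δ)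
    (C : Finset G) (hR : ∀ u ∈ C, Disp R u)
    (hC : ∀ E : Finset ℤ, E.Nonempty → ∀ b : G, b ∉ fc G → ∃ u ∈ C, cm u b ∉ fc G ∧
      ((E.filter fun j => u • j ≠ j).card : ℝ) ≤ δ * E.card)
    {C₀ : ℕ} (S : Finset G) (hS : ∀ s ∈ S, Disp C₀ s) :
    ∃ ρ : ℕ, ∀ t n : ℕ,
      (2 * (C₀ * n) + 1) ^ (2 * (ρ + t * R) + 1) * (fc G : Set G).ncard < (S ^ n).card →
      1 ≤ (2 * δ) ^ t * (4 * (C₀ * n) + 1) := by
  classical
  -- the radius
  have hρ : ∃ ρ : ℕ, ∀ g : G, (∀ j : ℤ, 0 ≤ j ↔ 0 ≤ g • j) → FixI ρ g → g = 1 := by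
    have h1 : ∀ g : G, ∃ m : ℕ, FixI m g → g = 1 := by
      intro g
      by_cases hg : ∀ j : ℤ, g • j = j
      · exact ⟨0, fun _ => hfaith g hg⟩
      · push Not at hg
        obtain ⟨j, hj⟩ := hg
        refine ⟨j.natAbs, fun hfix => absurd (hfix j ?_) hj⟩
        rw [Int.abs_eq_natAbs]
    choose m hm using h1
    refine ⟨hkeep.toFinset.sup m, fun g hg hfix => hm g (hfix.mono ?_)⟩
    exact Finset.le_sup (f := m) (hkeep.mem_toFinset.2 hg)
  obtain ⟨ρ, hρ⟩ := hρ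
  refine ⟨ρ, fun t n hcard => ?_⟩
  obtain ⟨b, hb, hfix, hd⟩ := pigeon hΦ S hS n (ρ + t * R) hcard
  obtain ⟨b', hb', hfix', hle⟩ := half_iter hdisp hδ C hR hC ρ t b hb hfix
  have h1 : ((cross b).ncard : ℝ) ≤ 4 * (C₀ * n) + 1 := by
    have h2 := cross_card hd
    have h3 : ((cross b).ncard : ℝ) ≤ ((2 * (2 * (C₀ * n)) + 1 : ℕ) : ℝ) := by exact_mod_cast h2
    refine h3.trans (le_of_eq ?_)
    push_cast
    ring
  have h2 : 1 ≤ (cross b').ncard := by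
    by_contra hcon
    have h3 : (cross b').ncard = 0 := by omega
    rw [Set.ncard_eq_zero (cross_finite' hdisp b')] at h3
    apply hb'
    have h4 : b' = 1 := by
      apply hρ b' _ hfix'
      intro j
      by_contra h5
      have h6 : j ∈ cross b' := h5
      rw [h3] at h6
      exact h6
    rw [h4]
    exact Subgroup.one_mem _
  have h3 : (1 : ℝ) ≤ ((cross b').ncard : ℝ) := by exact_mod_cast h2
  refine h3.trans (hle.trans ?_)
  apply mul_le_mul_of_nonneg_left h1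
  positivity

/-- the arithmetic of the scales -/
theorem scales (R ρ C₀ N : ℕ) (θ : ℝ) (hθ0 : 0 < θ) (hθ1 : θ < 1) :
    ∃ K : ℝ, ∀ n : ℕ, 2 ≤ n → ∃ t : ℕ,
      θ ^ t * (4 * ((C₀ : ℝ) * n) + 1) < 1 ∧
      ((2 * (C₀ * n) + 1 : ℕ) : ℝ) ^ (2 * (ρ + t * R) + 1) * N <
        Real.exp (K * Real.log n ^ 2) := by
  have hlθ : 0 < Real.log (1 / θ) := Real.log_pos (by rw [lt_div_iff₀ hθ0]; linarith)
  set l := Real.log (1 / θ) with hl
  -- K₁ with 4 C₀ n + 1 ≤ n ^ K₁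
  set K₁ : ℕ := 4 * C₀ + 2 with hK₁
  set A : ℝ := K₁ / l with hA
  have hA0 : 0 ≤ A := by positivity
  -- exponent bound: 2 (ρ + t R) + 1 ≤ B * log n
  set B : ℝ := 2 * R * A + 2 * (2 * ρ + 2 * R + 1) with hB
  refine ⟨K₁ * B + 4 * N + 1, fun n hn => ?_⟩
  have hn2 : (2 : ℝ) ≤ n := by exact_mod_cast hn
  have hn0 : (0 : ℝ) < n := by linarith
  set L := Real.log n with hL
  have hL2 : 1 / 2 < L := by
    have h1 : Real.log 2 ≤ L := Real.log_le_log (by norm_num) hn2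
    have h2 := Real.log_two_gt_d9
    linarith
  have hL0 : 0 < L := by linarith
  have hbase : 4 * ((C₀ : ℝ) * n) + 1 ≤ (n : ℝ) ^ K₁ := by
    have h1 : (4 * C₀ + 1 : ℕ) < 2 ^ (4 * C₀ + 1) := Nat.lt_two_pow_self
    have h2 : ((4 * C₀ + 1 : ℕ) : ℝ) ≤ (n : ℝ) ^ (4 * C₀ + 1) := by
      calc ((4 * C₀ + 1 : ℕ) : ℝ) ≤ ((2 ^ (4 * C₀ + 1) : ℕ) : ℝ) := by exact_mod_cast h1.le
        _ = (2 : ℝ) ^ (4 * C₀ + 1) := by push_cast; ring
        _ ≤ (n : ℝ) ^ (4 * C₀ + 1) := pow_le_pow_left₀ (by norm_num) hn2 _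
    have h3 : (n : ℝ) ^ K₁ = (n : ℝ) ^ (4 * C₀ + 1) * n := by
      rw [hK₁]
      exact pow_succ _ _
    rw [h3]
    push_cast at h2
    nlinarith [mul_le_mul_of_nonneg_right h2 hn0.le]
  set t : ℕ := ⌊A * L⌋₊ + 1 with ht
  have ht1 : A * L < t := by
    rw [ht]
    push_cast
    exact Nat.lt_floor_add_one _
  have ht2 : (t : ℝ) ≤ A * L + 1 := by
    rw [ht]
    push_cast
    have := Nat.floor_le (mul_nonneg hA0 hL0.le)
    linarith
  have hexpn : (n : ℝ) ^ K₁ = Real.exp (K₁ * L) := by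
    rw [hL, mul_comm, Real.exp_mul, Real.exp_log hn0, Real.rpow_natCast]
  refine ⟨t, ?_, ?_⟩
  · have h1 : θ ^ t = Real.exp (-(l * t)) := by
      have h2 : θ = Real.exp (-l) := by
        rw [hl, one_div, Real.log_inv, neg_neg, Real.exp_log hθ0]
      conv_lhs => rw [h2]
      rw [← Real.exp_nat_mul]
      congr 1
      ring
    rw [h1]
    calc Real.exp (-(l * t)) * (4 * ((C₀ : ℝ) * n) + 1) ≤
        Real.exp (-(l * t)) * Real.exp (K₁ * L) := by
          apply mul_le_mul_of_nonneg_left _ (Real.exp_pos _).le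
          rw [← hexpn]
          exact hbase
      _ = Real.exp (-(l * t) + K₁ * L) := by rw [Real.exp_add]
      _ < 1 := by
          rw [Real.exp_lt_one_iff]
          have h3 : l * (A * L) < l * t := mul_lt_mul_of_pos_left ht1 hlθ
          have h4 : l * (A * L) = K₁ * L := by
            rw [hA]
            field_simp
          linarith
  · have hb2 : ((2 * (C₀ * n) + 1 : ℕ) : ℝ) ≤ Real.exp (K₁ * L) := by
      rw [← hexpn]
      refine le_trans ?_ hbase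
      push_cast
      have : 0 ≤ (C₀ : ℝ) * n := by positivity
      linarith
    have hexpo : ((2 * (ρ + t * R) + 1 : ℕ) : ℝ) ≤ B * L := by
      push_cast
      have h1 : (t : ℝ) * R ≤ (A * L + 1) * R := mul_le_mul_of_nonneg_right ht2 (by positivity)
      have h2 : (2 * (ρ : ℝ) + 2 * R + 1) ≤ 2 * (2 * ρ + 2 * R + 1) * L := by
        have h3 : 0 ≤ 2 * (ρ : ℝ) + 2 * R + 1 := by positivity
        nlinarith
      rw [hB]
      nlinarith
    have hN : (N : ℝ) ≤ Real.exp (4 * N * L ^ 2) := by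
      have h1 : (N : ℝ) ≤ 4 * N * L ^ 2 := by
        have h2 : (1 : ℝ) ≤ 4 * L ^ 2 := by nlinarith
        have h3 : (0 : ℝ) ≤ N := by positivity
        nlinarith
      have h2 := Real.add_one_le_exp (4 * (N : ℝ) * L ^ 2)
      linarith
    calc ((2 * (C₀ * n) + 1 : ℕ) : ℝ) ^ (2 * (ρ + t * R) + 1) * N ≤
        Real.exp (K₁ * L) ^ (2 * (ρ + t * R) + 1) * Real.exp (4 * N * L ^ 2) := by
          apply mul_le_mul (pow_le_pow_left₀ (by positivity) hb2 _) hN (by positivity)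
            (by positivity)
      _ = Real.exp (((2 * (ρ + t * R) + 1 : ℕ) : ℝ) * (K₁ * L) + 4 * N * L ^ 2) := by
          rw [← Real.exp_nat_mul, Real.exp_add]
      _ < Real.exp ((K₁ * B + 4 * N + 1) * L ^ 2) := by
          rw [Real.exp_lt_exp]
          have h1 : ((2 * (ρ + t * R) + 1 : ℕ) : ℝ) * (K₁ * L) ≤ B * L * (K₁ * L) :=
            mul_le_mul_of_nonneg_right hexpo (by positivity)
          nlinarith [sq_nonneg L, mul_pos hL0 hL0]

/-- the contradiction -/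
theorem half_contra [DecidableEq G] (hΦ : (fc G : Set G).Finite)
    (hkeep : {g : G | ∀ j : ℤ, 0 ≤ j ↔ 0 ≤ g • j}.Finite)
    (hfaith : ∀ g : G, (∀ j : ℤ, g • j = j) → g = 1)
    (hdisp : ∀ g : G, ∃ R : ℕ, Disp R g) {δ : ℝ} (hδ0 : 0 < δ) (hδ : δ < 1 / 2)
    (C : Finset G)
    (hC : ∀ E : Finset ℤ, E.Nonempty → ∀ b : G, b ∉ fc G → ∃ u ∈ C, cm u b ∉ fc G ∧
      ((E.filter fun j => u • j ≠ j).card : ℝ) ≤ δ * E.card)
    (S : Finset G)
    (hgrow : ∀ K : ℝ, ∃ n : ℕ, 2 ≤ n ∧ Real.exp (K * Real.log n ^ 2) ≤ ((S ^ n).card : ℝ)) :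
    False := by
  classical
  choose D hD using hdisp
  have hR : ∀ u ∈ C, Disp (C.sup D) u := fun u hu => (hD u).mono (Finset.le_sup (f := D) hu)
  have hS : ∀ s ∈ S, Disp (S.sup D) s := fun u hu => (hD u).mono (Finset.le_sup (f := D) hu)
  obtain ⟨ρ, hρ⟩ := half_scale hΦ hkeep hfaith (fun g => ⟨D g, hD g⟩) hδ0.le C hR hC S hS
  obtain ⟨K, hK⟩ := scales (C.sup D) ρ (S.sup D) (fc G : Set G).ncard (2 * δ) (by linarith)
    (by linarith)
  obtain ⟨n, hn, hgn⟩ := hgrow K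
  obtain ⟨t, ht1, ht2⟩ := hK n hn
  have h1 := hρ t n (by
    have h2 := lt_of_lt_of_le ht2 hgn
    exact_mod_cast h2)
  push_cast at h1
  linarith

end Pool.Agent.H67.CIP
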