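import Pool.Agent.Helper67_CIP.Half
import Mathlib

/-!
Iteration of the commutator step, and the pigeonhole principle.
-/

namespace Pool.Agent.H67.CIP

open Pool.Agent.H50.CIG
open scoped Pointwise

variable {G : Type*} [Group G] [MulAction G ℤ]

theorem cross_finite' (hdisp : ∀ g : G, ∃ R : ℕ, Disp R g) (g : G) : (cross g).Finite := by
  obtain ⟨R, hR⟩ := hdisp g
  exact cross_finite hR

theorem half_step (hdisp : ∀ g : G, ∃ R : ℕ, Disp R g) {R : ℕ} {δ : ℝ} (C : Finset G)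
    (hR : ∀ u ∈ C, Disp R u)
    (hC : ∀ E : Finset ℤ, E.Nonempty → ∀ b : G, b ∉ fc G → ∃ u ∈ C, cm u b ∉ fc G ∧
      ((E.filter fun j => u • j ≠ j).card : ℝ) ≤ δ * E.card)
    {r : ℕ} {b : G} (hb : b ∉ fc G) (hfix : FixI (r + R) b) :
    ∃ b' : G, b' ∉ fc G ∧ FixI r b' ∧
      ((cross b').ncard : ℝ) ≤ 2 * δ * (cross b).ncard := by
  classical
  have hfin := cross_finite' hdisp b
  rcases (cross b).eq_empty_or_nonempty with hem | hne
  · refine ⟨b, hb, hfix.mono (by omega), ?_⟩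
    rw [hem]
    simp
  · have hne' : hfin.toFinset.Nonempty := by
      rwa [Set.Finite.toFinset_nonempty]
    obtain ⟨u, hu, hcm, hle⟩ := hC hfin.toFinset hne' b hb
    have h1 := cross_cm (hR u hu) (hfix.mono (show R ≤ r + R by omega)) hfin
    have h2 : cross b ∩ {j : ℤ | u • j ≠ j} =
        ((hfin.toFinset.filter fun j => u • j ≠ j : Finset ℤ) : Set ℤ) := by
      ext j
      simp
    have h3 : (cross b).ncard = hfin.toFinset.card := Set.ncard_eq_toFinset_card _ hfin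
    rw [h2, Set.ncard_coe_finset] at h1
    refine ⟨cm u b, hcm, fixI_cm (hR u hu) hfix, ?_⟩
    rw [h3]
    have h5 : ((cross (cm u b)).ncard : ℝ) ≤
        2 * ((hfin.toFinset.filter fun j => u • j ≠ j).card : ℝ) := by exact_mod_cast h1
    calc ((cross (cm u b)).ncard : ℝ) ≤
        2 * ((hfin.toFinset.filter fun j => u • j ≠ j).card : ℝ) := h5
      _ ≤ 2 * (δ * hfin.toFinset.card) := by linarith
      _ = _ := by ring

theorem half_iter (hdisp : ∀ g : G, ∃ R : ℕ, Disp R g) {R : ℕ} {δ : ℝ} (hδ : 0 ≤ δ)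
    (C : Finset G) (hR : ∀ u ∈ C, Disp R u)
    (hC : ∀ E : Finset ℤ, E.Nonempty → ∀ b : G, b ∉ fc G → ∃ u ∈ C, cm u b ∉ fc G ∧
      ((E.filter fun j => u • j ≠ j).card : ℝ) ≤ δ * E.card)
    (r t : ℕ) : ∀ b : G, b ∉ fc G → FixI (r + t * R) b →
    ∃ b' : G, b' ∉ fc G ∧ FixI r b' ∧
      ((cross b').ncard : ℝ) ≤ (2 * δ) ^ t * (cross b).ncard := by
  induction t with
  | zero =>
    intro b hb hfix
    refine ⟨b, hb, hfix.mono (by omega), ?_⟩
    rw [pow_zero, one_mul]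
  | succ t ih =>
    intro b hb hfix
    obtain ⟨b', hb', hfix', hle⟩ := half_step hdisp C hR hC (r := r + t * R) hb
      (hfix.mono (by
        have : (t + 1) * R = t * R + R := by ring
        omega))
    obtain ⟨b'', hb'', hfix'', hle'⟩ := ih b' hb' hfix'
    refine ⟨b'', hb'', hfix'', hle'.trans ?_⟩
    calc (2 * δ) ^ t * ((cross b').ncard : ℝ) ≤ (2 * δ) ^ t * (2 * δ * (cross b).ncard) := by
          apply mul_le_mul_of_nonneg_left hle
          positivity
      _ = _ := by ring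

theorem disp_pow {C₀ : ℕ} (S : Finset G) [DecidableEq G] (hS : ∀ s ∈ S, Disp C₀ s) (n : ℕ) :
    ∀ g ∈ S ^ n, Disp (C₀ * n) g := by
  induction n with
  | zero =>
    intro g hg
    rw [pow_zero, Finset.mem_one] at hg
    rw [hg]
    exact Disp.one
  | succ n ih =>
    intro g hg
    rw [pow_succ, Finset.mem_mul] at hg
    obtain ⟨a, ha, s, hs, rfl⟩ := hg
    have h1 := (ih a ha).mul (hS s hs)
    exact h1.mono (by ring_nf; omega)

theorem pigeon [DecidableEq G] (hΦ : (fc G : Set G).Finite) {C₀ : ℕ} (S : Finset G)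
    (hS : ∀ s ∈ S, Disp C₀ s) (n r : ℕ)
    (hcard : (2 * (C₀ * n) + 1) ^ (2 * r + 1) * (fc G : Set G).ncard < (S ^ n).card) :
    ∃ b : G, b ∉ fc G ∧ FixI r b ∧ Disp (2 * (C₀ * n)) b := by
  classical
  set ι := {j : ℤ // j ∈ Finset.Icc (-(r : ℤ)) r} with hι
  let t : Finset (ι → ℤ) := Fintype.piFinset fun _ : ι =>
    Finset.Icc (-((C₀ * n : ℕ) : ℤ)) ((C₀ * n : ℕ) : ℤ)
  have ht : t.card = (2 * (C₀ * n) + 1) ^ (2 * r + 1) := by
    rw [Fintype.card_piFinset, Finset.prod_const, Int.card_Icc, Finset.card_univ]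
    congr 1
    · omega
    · rw [Fintype.card_coe, Int.card_Icc]
      omega
  let f : G → (ι → ℤ) := fun g j => g • (j : ℤ) - j
  have hf : ∀ g ∈ S ^ n, f g ∈ t := by
    intro g hg
    rw [Fintype.mem_piFinset]
    intro j
    rw [Finset.mem_Icc]
    exact abs_le.1 (disp_pow S hS n g hg j)
  obtain ⟨y, -, hy⟩ := Finset.exists_lt_card_fiber_of_mul_lt_card_of_maps_to hf
    (n := (fc G : Set G).ncard) (by rw [ht]; exact hcard)
  have hpos : 0 < ((S ^ n).filter fun g => f g = y).card := lt_of_le_of_lt (Nat.zero_le _) hy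
  obtain ⟨g₀, hg₀⟩ := Finset.card_pos.1 hpos
  -- the elements g₀⁻¹ g
  have himg : ¬ (((S ^ n).filter fun g => f g = y).image fun g => g₀⁻¹ * g) ⊆ hΦ.toFinset := by
    intro hsub
    have h1 := Finset.card_le_card hsub
    rw [Finset.card_image_of_injective _ (mul_right_injective g₀⁻¹),
      ← Set.ncard_eq_toFinset_card _ hΦ] at h1
    omega
  rw [Finset.not_subset] at himg
  obtain ⟨b, hb, hbΦ⟩ := himg
  rw [Finset.mem_image] at hb
  obtain ⟨g, hg, rfl⟩ := hb
  rw [Finset.mem_filter] at hg hg₀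
  refine ⟨g₀⁻¹ * g, ?_, ?_, ?_⟩
  · intro h
    exact hbΦ (hΦ.mem_toFinset.2 h)
  · intro j hj
    have hj' : j ∈ Finset.Icc (-(r : ℤ)) r := Finset.mem_Icc.2 (abs_le.1 hj)
    have h1 : g • j - j = g₀ • j - j := by
      have h2 := congrFun hg.2 ⟨j, hj'⟩
      have h3 := congrFun hg₀.2 ⟨j, hj'⟩
      exact h2.trans h3.symm
    have h4 : g • j = g₀ • j := by linarith
    rw [mul_smul, h4, inv_smul_smul]
  · have h1 := (disp_pow S hS n g₀ hg₀.1).inv.mul (disp_pow S hS n g hg.1)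
    exact h1.mono (by omega)

end Pool.Agent.H67.CIP
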