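import Pool.Agent.Helper50_CIG.Basic

/-!
Groups without two infinite commuting subgroups and without infinite locally finite subgroups:
there is a finite set F such that the conjugates of y by F generate an infinite group for every
y outside the FC-centre, and a uniform statement on commutators of conjugates.
-/

namespace Pool.Agent.H67.CIP

open Pool.Agent.H50.CIG

/-- the commutator -/
def cm {G : Type*} [Group G] (u v : G) : G := u * v * u⁻¹ * v⁻¹

variable {G : Type*} [Group G]

/-- the subgroup generated by the conjugates of y by the elements of F -/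
def conjGen (y : G) (F : Set G) : Subgroup G :=
  Subgroup.closure ((fun f => f⁻¹ * y * f) '' F)

/-- every finite subset of L generates a finite group -/
def LocFin (L : Subgroup G) : Prop :=
  ∀ s : Finset G, (∀ x ∈ s, x ∈ L) → ((Subgroup.closure (s : Set G) : Subgroup G) : Set G).Finite

theorem conjGen_mono (y : G) {F E : Set G} (h : F ⊆ E) : conjGen y F ≤ conjGen y E :=
  Subgroup.closure_mono (Set.image_mono h)

theorem conj_mem_conjGen (y : G) {F : Set G} {f : G} (hf : f ∈ F) : f⁻¹ * y * f ∈ conjGen y F :=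
  Subgroup.subset_closure ⟨f, hf, rfl⟩

theorem finset_le_of_directed {c : Set (Subgroup G)} (hne : c.Nonempty)
    (hdir : DirectedOn (· ≤ ·) c) (s : Finset G) :
    (∀ x ∈ s, x ∈ sSup c) → ∃ Q ∈ c, ∀ x ∈ s, x ∈ Q := by
  classical
  induction s using Finset.induction_on with
  | empty =>
    intro _
    obtain ⟨Q, hQ⟩ := hne
    exact ⟨Q, hQ, by simp⟩
  | insert a s ha ih =>
    intro hs
    obtain ⟨Q, hQ, hQs⟩ := ih (fun x hx => hs x (Finset.mem_insert_of_mem hx))
    obtain ⟨R, hR, haR⟩ :=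
      (Subgroup.mem_sSup_of_directedOn hne hdir).mp (hs a (Finset.mem_insert_self a s))
    obtain ⟨T, hT, hQT, hRT⟩ := hdir Q hQ R hR
    refine ⟨T, hT, ?_⟩
    intro x hx
    rcases Finset.mem_insert.mp hx with rfl | hx
    · exact hRT haR
    · exact hQT (hQs x hx)

theorem exists_max (h : ∀ L : Subgroup G, LocFin L → (L : Set G).Finite) :
    ∃ P : Subgroup G, (P : Set G).Finite ∧
      ∀ Q : Subgroup G, P ≤ Q → (Q : Set G).Finite → Q ≤ P := by
  obtain ⟨P, hP⟩ := zorn_le₀ {P : Subgroup G | (P : Set G).Finite} (by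
    intro c hc hch
    rcases c.eq_empty_or_nonempty with rfl | hne
    · exact ⟨⊥, by simp, by simp⟩
    · refine ⟨sSup c, ?_, fun z hz => le_sSup hz⟩
      apply h
      intro s hs
      obtain ⟨Q, hQ, hQs⟩ := finset_le_of_directed hne hch.directedOn s hs
      have h2 : Subgroup.closure (s : Set G) ≤ Q :=
        (Subgroup.closure_le Q).mpr (fun x hx => hQs x hx)
      exact (hc hQ).subset h2)
  exact ⟨P, hP.prop, fun Q hPQ hQ => hP.le_of_ge hQ hPQ⟩

theorem conj_infinite {y : G} (hy : y ∉ fc G) : (Set.range fun g : G => g⁻¹ * y * g).Infinite := by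
  intro hfin
  apply hy
  rw [mem_fc]
  have : Finite (Set.range fun g : G => g⁻¹ * y * g) := hfin
  apply finiteIndex_of_fun _
    (fun g : G => (⟨g * y * g⁻¹, ⟨g⁻¹, by simp⟩⟩ : Set.range fun g : G => g⁻¹ * y * g))
  intro a b hab
  have h1 : a * y * a⁻¹ = b * y * b⁻¹ := congrArg Subtype.val hab
  rw [Subgroup.mem_centralizer_iff]
  intro w hw
  rw [Set.mem_singleton_iff.mp hw]
  have h2 : y * a⁻¹ = a⁻¹ * (b * y * b⁻¹) := by
    rw [← h1]
    group
  calc y * (a⁻¹ * b) = (y * a⁻¹) * b := by group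
    _ = a⁻¹ * (b * y * b⁻¹) * b := by rw [h2]
    _ = a⁻¹ * b * y := by group

theorem mem_conjGen_univ (y x : G) (hx : x ∈ conjGen y Set.univ) :
    ∃ F : Finset G, x ∈ conjGen y (F : Set G) := by
  classical
  unfold conjGen at hx
  induction hx using Subgroup.closure_induction with
  | mem x hx =>
    obtain ⟨f, _, rfl⟩ := hx
    exact ⟨{f}, conj_mem_conjGen y (by simp)⟩
  | one => exact ⟨∅, Subgroup.one_mem _⟩
  | mul a b _ _ iha ihb =>
    obtain ⟨F, hF⟩ := iha
    obtain ⟨E, hE⟩ := ihb
    refine ⟨F ∪ E, Subgroup.mul_mem _ ?_ ?_⟩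
    · exact conjGen_mono y (by simp) hF
    · exact conjGen_mono y (by simp) hE
  | inv a _ iha =>
    obtain ⟨F, hF⟩ := iha
    exact ⟨F, Subgroup.inv_mem _ hF⟩

theorem exists_finset_infinite (h : ∀ L : Subgroup G, LocFin L → (L : Set G).Finite) {y : G}
    (hy : y ∉ fc G) : ∃ F : Finset G, (conjGen y (F : Set G) : Set G).Infinite := by
  classical
  by_contra hcon
  have hcon' : ∀ F : Finset G, (conjGen y (F : Set G) : Set G).Finite := by
    intro F
    by_contra hF
    exact hcon ⟨F, hF⟩
  have hN : LocFin (conjGen y Set.univ) := by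
    intro s hs
    choose! F hF using fun x (hx : x ∈ s) => mem_conjGen_univ y x (hs x hx)
    refine (hcon' (s.biUnion F)).subset ?_
    have h1 : Subgroup.closure (s : Set G) ≤ conjGen y ((s.biUnion F : Finset G) : Set G) := by
      rw [Subgroup.closure_le]
      intro x hx
      refine conjGen_mono y ?_ (hF x hx)
      intro f hf
      rw [Finset.mem_coe, Finset.mem_biUnion]
      exact ⟨x, hx, hf⟩
    exact h1
  have h2 := h _ hN
  apply conj_infinite hy
  refine h2.subset ?_
  rintro _ ⟨g, rfl⟩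
  exact conj_mem_conjGen y (Set.mem_univ g)

/-- one finite set of conjugators for all elements outside the FC-centre -/
theorem exists_uniform (h : ∀ L : Subgroup G, LocFin L → (L : Set G).Finite) :
    ∃ F : Finset G, ∀ y : G, y ∉ fc G → (conjGen y (F : Set G) : Set G).Infinite := by
  classical
  obtain ⟨P, hPf, hP⟩ := exists_max h
  have hch : ∀ y : G, ∃ F : Finset G, y ∉ fc G → (conjGen y (F : Set G) : Set G).Infinite := by
    intro y
    by_cases hy : y ∈ fc G
    · exact ⟨∅, fun h => absurd hy h⟩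
    · obtain ⟨F, hF⟩ := exists_finset_infinite h hy
      exact ⟨F, fun _ => hF⟩
  choose E hE using hch
  refine ⟨hPf.toFinset ∪ hPf.toFinset.biUnion E, ?_⟩
  intro y hy hfin
  by_cases hyP : y ∈ P
  · apply hE y hy
    refine hfin.subset ?_
    have h1 : conjGen y (E y : Set G) ≤
        conjGen y ((hPf.toFinset ∪ hPf.toFinset.biUnion E : Finset G) : Set G) := by
      apply conjGen_mono
      intro f hf
      rw [Finset.mem_coe, Finset.mem_union, Finset.mem_biUnion]
      exact Or.inr ⟨y, by simpa using hyP, hf⟩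
    exact h1
  · apply hyP
    have hN : (conjGen y (P : Set G) : Set G).Finite := by
      refine hfin.subset ?_
      have h1 : conjGen y (P : Set G) ≤
          conjGen y ((hPf.toFinset ∪ hPf.toFinset.biUnion E : Finset G) : Set G) := by
        apply conjGen_mono
        intro f hf
        rw [Finset.mem_coe, Finset.mem_union]
        exact Or.inl (by simpa using hf)
      exact h1
    have hnorm : P ≤ Subgroup.normalizer (conjGen y (P : Set G)) := by
      intro p hp
      rw [Subgroup.mem_normalizer_iff]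
      have key : ∀ q ∈ P, ∀ n ∈ conjGen y (P : Set G), q * n * q⁻¹ ∈ conjGen y (P : Set G) := by
        intro q hq n hn
        unfold conjGen at hn
        induction hn using Subgroup.closure_induction with
        | mem x hx =>
          obtain ⟨f, hf, rfl⟩ := hx
          have h1 : (f * q⁻¹)⁻¹ * y * (f * q⁻¹) ∈ conjGen y (P : Set G) :=
            conj_mem_conjGen y (P.mul_mem hf (P.inv_mem hq))
          have h2 : q * (f⁻¹ * y * f) * q⁻¹ = (f * q⁻¹)⁻¹ * y * (f * q⁻¹) := by group
          show q * (f⁻¹ * y * f) * q⁻¹ ∈ _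
          rw [h2]
          exact h1
        | one => simp
        | mul a b _ _ iha ihb =>
          have h2 : q * (a * b) * q⁻¹ = (q * a * q⁻¹) * (q * b * q⁻¹) := by group
          rw [h2]
          exact Subgroup.mul_mem _ iha ihb
        | inv a _ iha =>
          have h2 : q * a⁻¹ * q⁻¹ = (q * a * q⁻¹)⁻¹ := by group
          rw [h2]
          exact Subgroup.inv_mem _ iha
      intro n
      constructor
      · exact key p hp n
      · intro hn
        have h1 := key p⁻¹ (P.inv_mem hp) _ hn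
        have h2 : p⁻¹ * (p * n * p⁻¹) * p⁻¹⁻¹ = n := by group
        rwa [h2] at h1
    have hcoe := Subgroup.coe_mul_of_left_le_normalizer_right P (conjGen y (P : Set G)) hnorm
    have hfin2 : ((P ⊔ conjGen y (P : Set G) : Subgroup G) : Set G).Finite := by
      rw [hcoe]
      exact hPf.mul hN
    have h3 := hP _ le_sup_left hfin2
    apply h3
    apply (le_sup_right : conjGen y (P : Set G) ≤ P ⊔ conjGen y (P : Set G))
    have h4 := conj_mem_conjGen y (F := (P : Set G)) (f := 1) P.one_mem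
    simpa using h4

theorem conj_finite {z : G} (hz : z ∈ fc G) : (Set.range fun g : G => g⁻¹ * z * g).Finite := by
  rw [mem_fc] at hz
  have hfi : Finite (G ⧸ Subgroup.centralizer {z}) := Subgroup.finite_quotient_of_finiteIndex
  have h4 : (Set.range fun q : G ⧸ Subgroup.centralizer {z} => q.out * z * q.out⁻¹).Finite :=
    Set.finite_range _
  refine h4.subset ?_
  rintro _ ⟨g, rfl⟩
  refine ⟨((g⁻¹ : G) : G ⧸ Subgroup.centralizer {z}), ?_⟩
  have h5 : (((((g⁻¹ : G) : G ⧸ Subgroup.centralizer {z}).out : G)) :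
      G ⧸ Subgroup.centralizer {z}) = ((g⁻¹ : G) : G ⧸ Subgroup.centralizer {z}) :=
    QuotientGroup.out_eq' _
  rw [QuotientGroup.eq, Subgroup.mem_centralizer_iff] at h5
  have h6 := h5 z rfl
  show ((g⁻¹ : G) : G ⧸ Subgroup.centralizer {z}).out * z *
    (((g⁻¹ : G) : G ⧸ Subgroup.centralizer {z}).out)⁻¹ = g⁻¹ * z * g
  generalize ((g⁻¹ : G) : G ⧸ Subgroup.centralizer {z}).out = w at h6 ⊢
  have h7 : g * w * z = z * (g * w) := by
    have h8 : w * (z * (w⁻¹ * g⁻¹)) = w * (w⁻¹ * g⁻¹ * z) := by rw [h6]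
    have h9 : w * z * w⁻¹ = g⁻¹ * z * g := by
      calc w * z * w⁻¹ = w * (z * (w⁻¹ * g⁻¹)) * g := by group
        _ = w * (w⁻¹ * g⁻¹ * z) * g := by rw [h8]
        _ = g⁻¹ * z * g := by group
    calc g * w * z = g * (w * z * w⁻¹) * w := by group
      _ = g * (g⁻¹ * z * g) * w := by rw [h9]
      _ = z * (g * w) := by group
  calc w * z * w⁻¹ = g⁻¹ * (g * w * z) * w⁻¹ := by group
    _ = g⁻¹ * (z * (g * w)) * w⁻¹ := by rw [h7]
    _ = g⁻¹ * z * g := by group

theorem not_mem_fc_of_conj_infinite {z : G} (h : (Set.range fun g : G => g⁻¹ * z * g).Infinite) :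
    z ∉ fc G := fun hz => h (conj_finite hz)

theorem fc_conj {z : G} (hz : z ∈ fc G) (h : G) : h⁻¹ * z * h ∈ fc G := by
  by_contra hcon
  have h2 := conj_infinite hcon
  apply h2
  refine (conj_finite hz).subset ?_
  rintro _ ⟨g, rfl⟩
  refine ⟨h * g, ?_⟩
  show (h * g)⁻¹ * z * (h * g) = g⁻¹ * (h⁻¹ * z * h) * g
  group

theorem fc_conj' {z : G} (hz : z ∈ fc G) (h : G) : h * z * h⁻¹ ∈ fc G := by
  have h1 := fc_conj hz h⁻¹
  rwa [inv_inv] at h1

/-- the pairs theorem -/
theorem pairs (hG : ¬ CI G) (h : ∀ L : Subgroup G, LocFin L → (L : Set G).Finite) :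
    ∃ F : Finset G, ∀ x : G, x ∉ fc G → ∀ y : G, y ∉ fc G →
      ∃ g ∈ F, cm (g⁻¹ * x * g) y ∉ fc G := by
  classical
  obtain ⟨F, hF⟩ := exists_uniform h
  refine ⟨Finset.image₂ (fun f k => f * k⁻¹) F F, ?_⟩
  intro x hx y hy
  by_contra hcon
  push Not at hcon
  have hΦ := fc_finite hG
  have hcom : ∀ f ∈ F, ∀ k ∈ F, cm (f⁻¹ * x * f) (k⁻¹ * y * k) ∈ fc G := by
    intro f hf k hk
    have h1 := hcon (f * k⁻¹) (Finset.mem_image₂_of_mem hf hk)
    have h2 := fc_conj h1 k
    have h3 : k⁻¹ * cm ((f * k⁻¹)⁻¹ * x * (f * k⁻¹)) y * k = cm (f⁻¹ * x * f) (k⁻¹ * y * k) := by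
      unfold cm
      group
    rwa [h3] at h2
  let A : Subgroup G := conjGen x (F : Set G)
  let B : Subgroup G := conjGen y (F : Set G)
  have hA : (A : Set G).Infinite := hF x hx
  have hB : (B : Set G).Infinite := hF y hy
  have hcA : ∀ a ∈ A, ∀ k ∈ F, cm a (k⁻¹ * y * k) ∈ fc G := by
    intro a ha k hk
    have ha' : a ∈ Subgroup.closure ((fun f => f⁻¹ * x * f) '' (F : Set G)) := ha
    clear ha
    induction ha' using Subgroup.closure_induction with
    | mem a ha =>
      obtain ⟨f, hf, rfl⟩ := ha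
      exact hcom f hf k hk
    | one =>
      unfold cm
      simp
    | mul a b ha1 hb1 iha ihb =>
      have h1 : cm (a * b) (k⁻¹ * y * k) = (a * cm b (k⁻¹ * y * k) * a⁻¹) * cm a (k⁻¹ * y * k) := by
        unfold cm
        group
      rw [h1]
      exact Subgroup.mul_mem _ (fc_conj' ihb a) iha
    | inv a ha1 iha =>
      have h1 : cm a⁻¹ (k⁻¹ * y * k) = a⁻¹ * (cm a (k⁻¹ * y * k))⁻¹ * a := by
        unfold cm
        group
      rw [h1]
      exact fc_conj (Subgroup.inv_mem _ iha) a
  let C : Subgroup G := Subgroup.centralizer ((fun k => k⁻¹ * y * k) '' (F : Set G))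
  have : Finite (fc G) := hΦ
  have hfi : (C.subgroupOf A).FiniteIndex := by
    apply finiteIndex_of_fun (α := F → fc G) _
      (fun a : A => fun k : F => ⟨cm (a : G) ((k : G)⁻¹ * y * k), hcA a a.2 k k.2⟩)
    intro a b hab
    rw [Subgroup.mem_subgroupOf, Subgroup.mem_centralizer_iff]
    rintro _ ⟨k, hk, rfl⟩
    have h1 := congrArg Subtype.val (congrFun hab ⟨k, hk⟩)
    have h2 : cm (a : G) (k⁻¹ * y * k) = cm (b : G) (k⁻¹ * y * k) := h1
    show k⁻¹ * y * k * ((a⁻¹ * b : A) : G) = ((a⁻¹ * b : A) : G) * (k⁻¹ * y * k)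
    generalize k⁻¹ * y * k = v at h2 ⊢
    unfold cm at h2
    rw [mul_left_inj] at h2
    push_cast
    have h3 : v * (a : G)⁻¹ = (a : G)⁻¹ * ((b : G) * v * (b : G)⁻¹) := by
      rw [← h2]
      group
    calc v * ((a : G)⁻¹ * b) = (v * (a : G)⁻¹) * b := by group
      _ = (a : G)⁻¹ * ((b : G) * v * (b : G)⁻¹) * b := by rw [h3]
      _ = (a : G)⁻¹ * (b : G) * v := by group
  have hAC : ((A ⊓ C : Subgroup G) : Set G).Infinite := by
    intro hfin
    have : Finite (C.subgroupOf A) := by
      have h1 : Finite ((A ⊓ C : Subgroup G) : Set G) := hfin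
      refine Finite.of_injective
        (fun x : C.subgroupOf A => (⟨x.1.1, ⟨x.1.2, x.2⟩⟩ : ((A ⊓ C : Subgroup G) : Set G))) ?_
      intro x y hxy
      apply Subtype.ext
      apply Subtype.ext
      have h0 := congrArg Subtype.val hxy
      exact h0
    have h2 : Finite A := finite_of_finiteIndex (C.subgroupOf A)
    exact hA (Set.toFinite (A : Set G))
  apply hG
  refine ⟨A ⊓ C, B, hAC, hB, ?_⟩
  intro a ha b hb
  have hB' : B ≤ Subgroup.centralizer {a} := by
    show Subgroup.closure ((fun k => k⁻¹ * y * k) '' (F : Set G)) ≤ _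
    rw [Subgroup.closure_le]
    intro v hv
    rw [SetLike.mem_coe, Subgroup.mem_centralizer_iff]
    rintro _ rfl
    exact ((Subgroup.mem_centralizer_iff.mp ha.2) v hv).symm
  exact (Subgroup.mem_centralizer_iff.mp (hB' hb)) a rfl

end Pool.Agent.H67.CIP
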